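import Pool.Agent.MP_098ecc_co.H10.Lag

set_option autoImplicit false

namespace Pool.Agent.MP_098ecc_co.H10

open PowerSeries Finset
open Pool.Agent.MP_098ecc_co.H85 (sw coeff_sw)

section Refl
variable {R : Type*} [CommRing R]

theorem coeff_mul_low {n n' : ℕ} {f g : R⟦X⟧} (hf : Low n f) (hg : Low n' g) (N : ℕ) :
    coeff N (f * g) = ∑ a ∈ range (n + 1), ∑ i ∈ range (n' + 1),
      if a + i = N then coeff a f * coeff i g else 0 := by
  rw [coeff_mul, ← sum_product', ← sum_filter]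
  symm
  refine sum_subset (fun p hp => mem_antidiagonal.2 (mem_filter.1 hp).2) fun p hp hp' => ?_
  have h1 := mem_antidiagonal.1 hp
  simp only [mem_filter, mem_product, mem_range, h1, and_true, not_and_or, not_lt] at hp'
  rcases hp' with h | h
  · rw [hf _ h, zero_mul]
  · rw [hg _ h, mul_zero]

/-- reversal of the coefficients up to degree `n` -/
noncomputable def rf (n : ℕ) (f : R⟦X⟧) : R⟦X⟧ :=
  PowerSeries.mk fun i => if i ≤ n then coeff (n - i) f else 0

theorem coeff_rf (n : ℕ) (f : R⟦X⟧) (i : ℕ) :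
    coeff i (rf n f) = if i ≤ n then coeff (n - i) f else 0 := by simp [rf]

theorem low_rf (n : ℕ) (f : R⟦X⟧) : Low n (rf n f) := fun j hj => by
  rw [coeff_rf, if_neg (by omega)]

theorem rf_mul {n n' : ℕ} {f g : R⟦X⟧} (hf : Low n f) (hg : Low n' g) :
    rf (n + n') (f * g) = rf n f * rf n' g := by
  ext i
  rw [coeff_rf, coeff_mul_low (low_rf n f) (low_rf n' g), coeff_mul_low hf hg, ← sum_flip]
  split_ifs with h
  · refine sum_congr rfl fun a ha => ?_
    rw [← sum_flip]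
    refine sum_congr rfl fun b hb => ?_
    have := mem_range.1 ha
    have := mem_range.1 hb
    rw [coeff_rf, coeff_rf, if_pos (by omega : a ≤ n), if_pos (by omega : b ≤ n')]
    exact if_congr (by omega) rfl rfl
  · refine (sum_eq_zero fun a ha => sum_eq_zero fun b hb => if_neg ?_).symm
    have := mem_range.1 ha
    have := mem_range.1 hb
    omega

theorem rf_pow {n : ℕ} {f : R⟦X⟧} (hf : Low n f) (k : ℕ) : rf (n * k) (f ^ k) = rf n f ^ k := by
  induction k with
  | zero =>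
    ext i
    rw [coeff_rf, pow_zero, pow_zero, coeff_one, coeff_one]
    split_ifs <;> first | rfl | omega
  | succ k ih => rw [pow_succ, pow_succ, mul_add, mul_one, rf_mul (hf.pow k) hf, ih]

/-- the pairing of the powers -/
noncomputable def sym (d : ℕ) (ξ υ : R⟦X⟧) (k l : ℕ) : R :=
  ∑ j ∈ range ((d + 1) * l + 1), ∑ i ∈ range ((d + 1) * k + 1),
    if k + j = l + i then ((k : R) - i) * (coeff i (ξ ^ k) * coeff j (υ ^ l)) else 0

theorem sym_comm (d : ℕ) (ξ υ : R⟦X⟧) (k l : ℕ) : sym d ξ υ k l = sym d υ ξ l k := by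
  rw [sym, sym, sum_comm]
  refine sum_congr rfl fun i _ => sum_congr rfl fun j _ => ?_
  by_cases h : k + j = l + i
  · rw [if_pos h, if_pos h.symm]
    have : (k : R) + j = l + i := by exact_mod_cast congrArg (Nat.cast : ℕ → R) h
    linear_combination (coeff i (ξ ^ k) * coeff j (υ ^ l)) * this
  · rw [if_neg h, if_neg (Ne.symm h)]

theorem coeff_sym {d : ℕ} {ξ υ : R⟦X⟧} (lξ : Low (d + 1) ξ) (lυ : Low (d + 1) υ) (k l : ℕ) :
    coeff (d * l + k) (rf (d + 1) υ ^ l * (C (k : R) * ξ ^ k - eul (ξ ^ k))) = sym d ξ υ k l := by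
  have h1 : Low ((d + 1) * k) (C (k : R) * ξ ^ k - eul (ξ ^ k)) := fun j hj => by
    rw [map_sub, coeff_C_mul, coeff_eul, lξ.pow k j hj]; simp
  rw [← rf_pow lυ, coeff_mul_low (low_rf _ _) h1, sym, ← sum_flip]
  refine sum_congr rfl fun j hj => sum_congr rfl fun i _ => ?_
  have := mem_range.1 hj
  refine if_congr ?_ ?_ rfl
  · rw [add_mul] at this ⊢; omega
  · rw [coeff_rf, if_pos (Nat.sub_le _ _), Nat.sub_sub_self (by omega), map_sub, coeff_C_mul,
      coeff_eul]
    ring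

end Refl

variable {K : Type*} [CommRing K] [Algebra ℚ K]

theorem half (d : ℕ) (ξ υ : K⟦X⟧) (x : ℕ → K) (hξ : IsUnit (constantCoeff ξ))
    (lξ : Low (d + 1) ξ) (lυ : Low (d + 1) υ)
    (hq : ∀ j, 1 ≤ j → coeff j υ =
      ∑ e ∈ range (d + 1), x e * if j ≤ e + 1 then coeff (e + 1 - j) (ξ ^ e) else 0)
    {M U : K⟦X⟧⟦X⟧} (hM : eul M = U * M) (hM0 : coeff 0 M = 1) (hM1 : coeff 0 (sw M) = 1)
    (hU0 : coeff 0 U = 0)
    (hU : ∀ l k : ℕ, 0 < l → 0 < k → (k : K) * coeff k (coeff l U) = sym d ξ υ k l) :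
    coeff 1 (coeff 1 M) =
      (coeff 0 υ - ∑ e ∈ range (d + 1), x e * coeff (e + 1) (ξ ^ e)) * coeff 0 ξ ∧
    ∀ k l, coeff (k + 1) (coeff (l + 1 + 1) M) =
      ∑ i ∈ range k, coeff (i + 1) (coeff 1 M) * coeff (k - 1 - i + 1) (coeff (l + 1) M) +
        ∑ e ∈ range (d + 1), x e * coeff (k + e + 1) (coeff (l + 1) M) := by
  obtain ⟨ζ, hζ⟩ := (isUnit_iff_constantCoeff.2 hξ).exists_right_inv
  obtain ⟨ψ, h1, h2⟩ := exists_psi ξ ζ hζ
  set H := ψ (rf (d + 1) υ * ζ ^ d) with hH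
  have hl := loop_low d H hM hM0 hU0 (fun l k hl hk => by
    rw [← sub_eq_zero]
    refine cancel_nat hk.ne' ?_
    obtain ⟨k, rfl⟩ := Nat.exists_eq_succ_of_ne_zero hk.ne'
    rw [mul_sub, hU l _ hl hk, ← coeff_sym lξ lυ, hH, ← map_pow, h2, ← coeff_C_mul, sub_eq_zero,
      eul_pow_succ]
    congr 1
    have e : (ξ * ζ) ^ (d * l) = 1 := by rw [hζ, one_pow]
    simp only [Nat.succ_eq_add_one, Nat.cast_add, Nat.cast_one]
    linear_combination (C ((k : K) + 1) * rf (d + 1) υ ^ l * ξ ^ (k + 1) * (1 - eul ξ * ζ)) * e -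
      (C ((k : K) + 1) * rf (d + 1) υ ^ l * ξ ^ k * eul ξ) * hζ)
  obtain ⟨ρ, hρ⟩ : X ^ (d + 1) ∣ rf (d + 1) υ -
      ∑ e ∈ range (d + 1), C (x e) * (X ^ (d - e) * ξ ^ e) := by
    rw [X_pow_dvd_iff]
    intro i hi
    rw [map_sub, coeff_rf, if_pos hi.le, hq _ (by omega), map_sum, sub_eq_zero]
    refine sum_congr rfl fun e he => ?_
    have := mem_range.1 he
    rw [coeff_C_mul, coeff_X_pow_mul']
    congr 1
    refine if_congr (by omega) ?_ rfl
    congr 2; omega
  have hρ0 : coeff 0 ρ = coeff 0 υ - ∑ e ∈ range (d + 1), x e * coeff (e + 1) (ξ ^ e) := by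
    have := congrArg (coeff (0 + (d + 1))) hρ
    rw [coeff_X_pow_mul, map_sub, coeff_rf, if_pos (by omega), map_sum] at this
    rw [← this, zero_add, Nat.sub_self]
    congr 1
    refine sum_congr rfl fun e he => ?_
    have := mem_range.1 he
    rw [coeff_C_mul, coeff_X_pow_mul', if_pos (by omega)]
    congr 3; omega
  have hH2 : H = ∑ e ∈ range (d + 1), C (x e) * X ^ (d - e) + ψ (X ^ (d + 1) * (ρ * ζ ^ d)) := by
    rw [hH, sub_eq_iff_eq_add'.1 hρ, add_mul, map_add, mul_assoc, sum_mul, map_sum]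
    congr 1
    refine sum_congr rfl fun e he => ?_
    obtain ⟨r, rfl⟩ : ∃ r, d = e + r := ⟨d - e, by have := mem_range.1 he; omega⟩
    have e1 : ψ (C (x e)) = C (x e) := ψ.commutes _
    have e2 : (ξ * ζ) ^ e = 1 := by rw [hζ, one_pow]
    have e3 : C (x e) * (X ^ r * ξ ^ e) * ζ ^ (e + r) = C (x e) * (X * ζ) ^ r := by
      linear_combination (C (x e) * X ^ r * ζ ^ r) * e2
    rw [Nat.add_sub_cancel_left, e3, map_mul, map_pow, h1, e1]
  have hlow : ∀ i, i ≤ d → coeff i H = x (d - i) := by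
    intro i hi
    rw [hH2, map_add, h2, mul_assoc, coeff_X_pow_mul', if_neg (by omega), add_zero, map_sum,
      sum_eq_single (d - i)]
    · rw [coeff_C_mul, coeff_X_pow, if_pos (by omega), mul_one]
    · intro e he hne
      have := mem_range.1 he
      rw [coeff_C_mul, coeff_X_pow, if_neg (by omega), mul_zero]
    · intro h; exact absurd (mem_range.2 (by omega)) h
  have hhi : ∀ i, coeff (d + (i + 1)) H = coeff (i + 1) (coeff 1 M) := by
    intro i
    have := hl 0 (i + 1) (Nat.succ_pos i)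
    rw [hM0, mul_one] at this
    exact this.symm
  refine ⟨?_, fun k l => ?_⟩
  · rw [← hhi 0, hH2, map_add, h2, mul_assoc, coeff_X_pow_mul', if_pos le_rfl, map_sum,
      sum_eq_zero, ← hρ0, Nat.sub_self, zero_add]
    · have e : ρ * ζ ^ d * (ξ ^ (d + (0 + 1)) * (1 - eul ξ * ζ)) = ρ * ξ * (1 - eul ξ * ζ) := by
        have e2 : (ξ * ζ) ^ d = 1 := by rw [hζ, one_pow]
        linear_combination (ρ * ξ * (1 - eul ξ * ζ)) * e2
      rw [e]
      simp [const_eul]
    · intro e _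
      rw [coeff_C_mul, coeff_X_pow, if_neg (by omega), mul_zero]
  · rw [hl (l + 1) (k + 1) (Nat.succ_pos k), coeff_mul, Nat.sum_antidiagonal_eq_sum_range_succ
      (fun i j => coeff i H * coeff j (coeff (l + 1) M)), Nat.succ_eq_add_one,
      show d + (k + 1) + 1 = (d + 1) + (k + 1) by ring, sum_range_add, add_comm, sum_range_succ]
    have h0 : coeff 0 (coeff (l + 1) M) = 0 := by
      rw [← coeff_sw, hM1, coeff_one, if_neg (Nat.succ_ne_zero l)]
    rw [show d + (k + 1) - (d + 1 + k) = 0 by omega, h0, mul_zero, add_zero]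
    congr 1
    · refine sum_congr rfl fun i hi => ?_
      have := mem_range.1 hi
      rw [show d + 1 + i = d + (i + 1) by ring, hhi,
        show d + (k + 1) - (d + (i + 1)) = k - 1 - i + 1 by omega]
    · rw [← sum_flip]
      refine sum_congr rfl fun e he => ?_
      have := mem_range.1 he
      rw [hlow _ (Nat.sub_le _ _), Nat.sub_sub_self (by omega),
        show d + (k + 1) - (d - e) = k + e + 1 by omega]

/-- the solution of the edge deletion recursion -/
theorem tutte (d : ℕ) (ξ υ : K⟦X⟧) (x y : ℕ → K) (hξ : IsUnit (constantCoeff ξ))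
    (hυ : coeff 0 υ = 1) (lξ : Low (d + 1) ξ) (lυ : Low (d + 1) υ)
    (hq : ∀ j, 1 ≤ j → coeff j υ =
      ∑ e ∈ range (d + 1), x e * if j ≤ e + 1 then coeff (e + 1 - j) (ξ ^ e) else 0)
    (hp : ∀ j, 1 ≤ j → coeff j ξ =
      ∑ e ∈ range (d + 1), y e * if j ≤ e + 1 then coeff (e + 1 - j) (υ ^ e) else 0)
    (hp0 : coeff 0 ξ = 1 + ∑ e ∈ range (d + 1), y e * coeff (e + 1) (υ ^ e)) :
    ∃ T : ℕ → ℕ → K, T 0 0 = 1 ∧
      (∀ k l, T k (l + 1) = ∑ i ∈ range k, T i 0 * T (k - 1 - i) l +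
        ∑ e ∈ range (d + 1), x e * T (k + e) l) ∧
      (∀ k, T (k + 1) 0 = ∑ e ∈ range (d + 1), y e * T k e) ∧
      2 * T 1 1 = 1 + ∑ n ∈ range ((d + 1) * 2 + 1),
        coeff n (ξ * (ξ - eul ξ)) * coeff n (υ ^ 2) := by
  let E : K⟦X⟧⟦X⟧ := PowerSeries.mk fun l => PowerSeries.mk fun k =>
    algebraMap ℚ K (((k : ℚ) * l)⁻¹) * sym d ξ υ k l
  have hE : ∀ k l, coeff k (coeff l E) = algebraMap ℚ K (((k : ℚ) * l)⁻¹) * sym d ξ υ k l := by
    intro k l; simp only [E, coeff_mk]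
  obtain ⟨M, a0, a1, b0, b1⟩ := exists_exp E (by ext k; rw [hE]; simp)
    (by ext l; rw [coeff_sw, hE]; simp)
  have key : ∀ (k l : ℕ) (s : K), 0 < l → 0 < k →
      (k : K) * ((l : K) * (algebraMap ℚ K (((k : ℚ) * l)⁻¹) * s)) = s := by
    intro k l s hl hk
    have : ((k : ℚ) * l) ≠ 0 := by positivity
    rw [← map_natCast (algebraMap ℚ K), ← map_natCast (algebraMap ℚ K) l, ← mul_assoc, ← mul_assoc,
      ← map_mul, ← map_mul, mul_inv_cancel₀ this, map_one, one_mul]
  have hUa : ∀ l k : ℕ, 0 < l → 0 < k → (k : K) * coeff k (coeff l (eul E)) = sym d ξ υ k l := by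
    intro l k hl hk
    rw [coeff_eul, ← map_natCast (C : K →+* K⟦X⟧), coeff_C_mul, hE, key k l _ hl hk]
  obtain ⟨-, A⟩ := half d ξ υ x hξ lξ lυ hq a1 a0 b0 (by simp) hUa
  obtain ⟨B0, B⟩ := half d υ ξ y (by rw [← coeff_zero_eq_constantCoeff_apply, hυ]; exact isUnit_one)
    lυ lξ hp b1 b0 (by rw [sw_sw, a0]) (by simp) (fun l k hl hk => by
      rw [coeff_eul, ← map_natCast (C : K →+* K⟦X⟧), coeff_C_mul, coeff_sw, hE, mul_comm (l : ℚ),
        key k l _ hl hk, sym_comm])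
  have T0 : coeff 1 (coeff 1 M) = 1 := by
    rw [← coeff_sw, B0, hυ, hp0]; ring
  refine ⟨fun k l => coeff (k + 1) (coeff (l + 1) M), T0, A, fun k => ?_, ?_⟩
  · have := B 0 k
    simpa only [coeff_sw, range_zero, sum_empty, zero_add] using this
  · have h2 := congrArg (fun f => coeff 2 (coeff 2 f)) a1
    have z1 : coeff 0 (coeff 1 M) = 0 := by rw [← coeff_sw, b0, coeff_one, if_neg one_ne_zero]
    have z2 : coeff 0 (coeff 1 E) = 0 := by rw [hE]; simp
    have z3 : coeff 1 (coeff 1 E) = 1 := by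
      have h3 := congrArg (fun f => coeff 1 (coeff 1 f)) a1
      simpa [coeff_mul, Nat.antidiagonal_succ, a0, T0] using h3.symm
    have z4 := hUa 2 2 two_pos two_pos
    have z5 : sym d ξ υ 2 2 = (2 : ℕ) * ∑ n ∈ range ((d + 1) * 2 + 1),
        coeff n (ξ * (ξ - eul ξ)) * coeff n (υ ^ 2) := by
      rw [sym, mul_sum]
      refine sum_congr rfl fun j hj => ?_
      rw [sum_eq_single j (fun i _ hi => if_neg (by omega)) (fun h => absurd hj h), if_pos rfl]
      have := congrArg (coeff j) (eul_pow_succ ξ 1)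
      rw [coeff_eul, coeff_C_mul, pow_one] at this
      rw [mul_sub, map_sub, ← pow_two]
      push_cast at this ⊢
      linear_combination (-coeff j (υ ^ 2)) * this
    rw [z5, ← sub_eq_zero, ← mul_sub] at z4
    have z6 := sub_eq_zero.1 (cancel_nat two_ne_zero z4)
    have c2 : ∀ {R : Type _} [CommRing R] (f g : R⟦X⟧), coeff 2 (f * g) =
        coeff 0 f * coeff 2 g + coeff 1 f * coeff 1 g + coeff 2 f * coeff 0 g := by
      intro R _ f g
      rw [coeff_mul, Nat.sum_antidiagonal_eq_sum_range_succ (fun i j => coeff i f * coeff j g)]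
      simp [sum_range_succ]
    rw [← z6]
    beta_reduce at h2 ⊢
    rw [c2 (eul E) M, a0, mul_one, map_add, map_add, coeff_eul, coeff_eul, coeff_eul, c2 _ (coeff 1 M),
      ← map_natCast (C : K →+* K⟦X⟧), coeff_C_mul, z1, T0] at h2
    simp only [Nat.cast_one, one_mul, z2, z3, Nat.cast_zero, zero_mul, map_zero] at h2
    push_cast at h2
    linear_combination h2

end Pool.Agent.MP_098ecc_co.H10
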