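import Pool.Agent.MP_098ecc_co.H97.Defs

set_option autoImplicit false

namespace Pool.Agent.MP_098ecc_co.H10

open PowerSeries Finset
open Pool.Agent.MP_098ecc_co.H97

theorem nrm_mul (f g : ℂ⟦X⟧) {r : ℝ} (hr : 0 ≤ r) (n : ℕ) :
    ∑ j ∈ range n, ‖coeff j (f * g)‖ * r ^ j ≤
      (∑ j ∈ range n, ‖coeff j f‖ * r ^ j) * ∑ j ∈ range n, ‖coeff j g‖ * r ^ j := by
  calc _ ≤ ∑ j ∈ range n, ∑ i ∈ range (j + 1),
        ‖coeff i f‖ * r ^ i * (‖coeff (j - i) g‖ * r ^ (j - i)) := by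
        refine sum_le_sum fun j _ => ?_
        rw [coeff_mul, Nat.sum_antidiagonal_eq_sum_range_succ (fun i k => coeff i f * coeff k g)]
        refine (mul_le_mul_of_nonneg_right (norm_sum_le _ _) (pow_nonneg hr j)).trans_eq ?_
        rw [sum_mul]
        refine sum_congr rfl fun i hi => ?_
        obtain ⟨k, rfl⟩ := Nat.exists_eq_add_of_le (Nat.lt_succ_iff.1 (mem_range.1 hi))
        rw [Nat.add_sub_cancel_left, norm_mul]; ring
    _ = ∑ i ∈ range n, ∑ k ∈ range (n - i), ‖coeff i f‖ * r ^ i * (‖coeff k g‖ * r ^ k) :=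
        sum_range_diag_flip n fun i k => ‖coeff i f‖ * r ^ i * (‖coeff k g‖ * r ^ k)
    _ ≤ _ := by
        rw [sum_mul_sum]
        exact sum_le_sum fun i _ => sum_le_sum_of_subset_of_nonneg
          (range_subset_range.2 (Nat.sub_le _ _)) fun _ _ _ => by positivity

theorem coeff_pow_le (f : ℕ → ℂ) {r A : ℝ} (hr : 0 ≤ r)
    (hA : ∀ n, ∑ i ∈ range n, ‖f i‖ * r ^ i ≤ A) (N j : ℕ) :
    ‖coeff j (PowerSeries.mk f ^ N)‖ * r ^ j ≤ A ^ N := by
  have h0 : 0 ≤ A := by simpa using hA 0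
  have : ∀ n, ∑ i ∈ range n, ‖coeff i (PowerSeries.mk f ^ N)‖ * r ^ i ≤ A ^ N := by
    induction N with
    | zero =>
      rintro (_ | n)
      · simp
      · simp [sum_range_succ', coeff_one]
    | succ N ih =>
      intro n
      rw [pow_succ, pow_succ]
      refine (nrm_mul _ _ hr n).trans (mul_le_mul (ih n) ?_ (by positivity) (by positivity))
      simpa only [coeff_mk] using hA n
  exact (single_le_sum (f := fun i => ‖coeff i (PowerSeries.mk f ^ N)‖ * r ^ i)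
    (fun _ _ => by positivity) (self_mem_range_succ j)).trans (this (j + 1))

theorem cf_sub (f : ℕ → ℂ) (N l i : ℕ) : cf f N ((l : ℤ) - i) =
    if i ≤ l then coeff (l - i) (PowerSeries.mk f ^ N) else 0 := by
  rw [cf, Int.toNat_sub]
  simp only [sub_nonneg, Nat.cast_le]

theorem sT_tail (m : ℕ) (w f : ℕ → ℂ) {r A c q : ℝ} (hr : 0 < r) (hq : 0 ≤ q) (hq1 : q < 1)
    (hA : ∀ n, ∑ i ∈ range n, ‖f i‖ * r ^ i ≤ A)
    (hw : ∀ l, ‖w l‖ * A ^ (m * l - 1) ≤ c * (q * r) ^ l) (i n : ℕ) :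
    ‖sT m w f i - ∑ l ∈ range n, w l *
      if i ≤ l then coeff (l - i) (PowerSeries.mk f ^ (m * l - 1)) else 0‖ ≤
      c * r ^ i * q ^ n * (1 - q)⁻¹ := by
  have h0 : 0 ≤ A := by simpa using hA 0
  have hc : 0 ≤ c := by
    have := hw 0
    rw [pow_zero (q * r), mul_one] at this
    exact le_trans (by positivity) this
  have hb : ∀ l, ‖w l * cf f (m * l - 1) (l - i)‖ ≤ c * r ^ i * q ^ l := by
    intro l
    rw [cf_sub]
    split_ifs with h
    · obtain ⟨k, rfl⟩ := Nat.exists_eq_add_of_le h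
      rw [Nat.add_sub_cancel_left, norm_mul]
      refine le_of_mul_le_mul_right ?_ (pow_pos hr k)
      have := mul_le_mul_of_nonneg_left (coeff_pow_le f hr.le hA (m * (i + k) - 1) k)
        (norm_nonneg (w (i + k)))
      rw [mul_assoc]
      refine this.trans ((hw _).trans_eq ?_)
      ring
    · rw [mul_zero, norm_zero]; positivity
  have hg := (hasSum_geometric_of_lt_one hq hq1).mul_left (c * r ^ i)
  have hs : Summable fun l => w l * cf f (m * l - 1) (l - i) := .of_norm_bounded hg.summable hb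
  rw [sT, ← hs.sum_add_tsum_nat_add n]
  simp only [cf_sub] at hb ⊢
  rw [add_sub_cancel_left]
  refine tsum_of_norm_bounded ((hasSum_geometric_of_lt_one hq hq1).mul_left (c * r ^ i * q ^ n))
    fun l => (hb (l + n)).trans_eq ?_
  ring

theorem geo_le {q : ℝ} (hq : 0 ≤ q) (hq1 : q ≤ 1 / 2) (n : ℕ) : ∑ i ∈ range n, q ^ i ≤ 2 :=
  (sum_le_sum fun i _ => pow_le_pow_left₀ hq hq1 i).trans (sum_geometric_two_le n)

variable {D : Dat} {t : ℂ} {X Y : ℕ → ℂ} {η : ℝ}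

theorem norm_ind_le (L : Set ℕ) (l : ℕ) : ‖ind ℂ L l‖ ≤ 1 := by
  unfold ind; split_ifs <;> simp

theorem X_le (hη : 0 ≤ η) (hm : (1 + η) ^ D.m ≤ 3 / 2) (h : Eqs D t X Y) (hs : Small η X Y)
    (i : ℕ) : ‖X i‖ ≤ 5 * ‖t‖ * 2 ^ i := by
  have h1 := sT_tail D.m (ind ℂ D.L₂) Y (r := 2) (A := 1 + η) (c := 1) (q := 3 / 4) two_pos
    (by norm_num) (by norm_num) (by
      rintro (_ | n)
      · simp; positivity
      rw [sum_range_succ', h.y0, add_comm]
      have : ∑ i ∈ range n, ‖Y (i + 1)‖ * 2 ^ (i + 1) ≤ ∑ i ∈ range n, η / 2 * (1 / 2) ^ i := by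
        refine sum_le_sum fun i _ => (mul_le_mul_of_nonneg_right (hs.2 (i + 1) (by omega))
          (by positivity)).trans_eq ?_
        rw [mul_assoc, ← mul_pow]; ring
      rw [← mul_sum] at this
      have := sum_geometric_two_le n
      simp only [norm_one, pow_zero, mul_one]
      nlinarith) (fun l => by
      calc _ ≤ 1 * (1 + η) ^ (D.m * l) := mul_le_mul (norm_ind_le _ _)
            (pow_le_pow_right₀ (by linarith) (Nat.sub_le _ _)) (by positivity) zero_le_one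
        _ ≤ _ := by
          rw [pow_mul, one_mul, one_mul]
          exact pow_le_pow_left₀ (by positivity) (hm.trans_eq (by norm_num)) l) i 0
  simp only [range_zero, sum_empty, sub_zero] at h1
  have h2 : (1 : ℝ) ≤ 2 ^ i := one_le_pow₀ one_le_two
  have h3 := mul_le_mul_of_nonneg_left h1 (norm_nonneg t)
  rw [← norm_mul] at h3
  have h4 := mul_le_mul_of_nonneg_left h2 (norm_nonneg t)
  rcases i with _ | i
  · rw [h.x0]
    refine (norm_add_le _ _).trans ?_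
    simp only [Nat.cast_zero] at h3
    linarith
  · rw [h.hx _ (by omega)]
    linarith [norm_nonneg t]

theorem Y_le (hη : 0 ≤ η) (hm : (1 + η) ^ D.m ≤ 3 / 2) (h : Eqs D t X Y) (hs : Small η X Y)
    (ht : ‖t‖ ≤ 1 / 80) (i : ℕ) : ‖Y i‖ ≤ (10 * ‖t‖) ^ (D.m * i) := by
  rcases i with _ | i
  · simp [h.y0]
  have hq : (10 * ‖t‖) ^ D.m ≤ 1 / 8 :=
    (pow_le_of_le_one (by positivity) (by linarith) D.hm.ne').trans (by linarith)
  have h1 := sT_tail D.m (fun l => t * ind ℂ D.L₁ l) X (r := 1 / 4) (A := 10 * ‖t‖) (c := 1 / 10)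
    (q := 4 * (10 * ‖t‖) ^ D.m) (by norm_num) (by positivity) (by linarith) (fun n => by
      have : ∑ i ∈ range n, ‖X i‖ * (1 / 4) ^ i ≤ ∑ i ∈ range n, 5 * ‖t‖ * (1 / 2) ^ i := by
        refine sum_le_sum fun i _ => (mul_le_mul_of_nonneg_right (X_le hη hm h hs i)
          (by positivity)).trans_eq ?_
        rw [mul_assoc, ← mul_pow]; norm_num
      rw [← mul_sum] at this
      have := sum_geometric_two_le n
      nlinarith [norm_nonneg t]) (fun l => by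
      rcases l with _ | l
      · simp [ind, D.z₁]
      obtain ⟨k, hk⟩ : ∃ k, D.m * (l + 1) = k + 1 :=
        ⟨_, (Nat.sub_add_cancel (Nat.mul_pos D.hm (Nat.succ_pos l))).symm⟩
      rw [show 4 * (10 * ‖t‖) ^ D.m * (1 / 4) = (10 * ‖t‖) ^ D.m by ring, ← pow_mul, hk,
        Nat.add_sub_cancel, norm_mul, pow_succ]
      have := mul_le_mul_of_nonneg_left (norm_ind_le D.L₁ (l + 1))
        (show 0 ≤ ‖t‖ * (10 * ‖t‖) ^ k by positivity)
      linarith) (i + 1) (i + 1)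
  rw [sum_eq_zero fun l hl => by rw [if_neg (by simpa using hl), mul_zero], sub_zero] at h1
  have e : sT D.m (fun l => t * ind ℂ D.L₁ l) X (i + 1 : ℕ) = Y (i + 1) := by
    rw [h.hy _ (by omega), sT, sT, ← tsum_mul_left]
    simp only [mul_assoc]
  rw [e, mul_assoc (1 / 10), ← mul_pow, show 1 / 4 * (4 * (10 * ‖t‖) ^ D.m) = (10 * ‖t‖) ^ D.m
    by ring, ← pow_mul] at h1
  refine h1.trans ?_
  have h2 : (1 - 4 * (10 * ‖t‖) ^ D.m)⁻¹ ≤ 2 := by
    rw [inv_le_comm₀ (by linarith) two_pos]; linarith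
  have h3 : 0 ≤ (10 * ‖t‖) ^ (D.m * (i + 1)) := by positivity
  nlinarith

theorem coeff_pow_scale (c r : ℂ) (f : ℕ → ℂ) (N j : ℕ) :
    coeff j ((PowerSeries.mk fun i => c * r ^ i * f i) ^ N) =
      c ^ N * r ^ j * coeff j (PowerSeries.mk f ^ N) := by
  have : (PowerSeries.mk fun i => c * r ^ i * f i) = C c * rescale r (PowerSeries.mk f) := by
    ext i; simp [mul_assoc]
  rw [this, mul_pow, ← map_pow, ← map_pow, coeff_C_mul, coeff_rescale, mul_assoc]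

/-- rescaled unknowns -/
noncomputable def ra (m : ℕ) (u : ℂ) (X : ℕ → ℂ) (i : ℕ) : ℂ := (u ^ 2)⁻¹ * (u ^ m) ^ i * X i
noncomputable def rb (m : ℕ) (u : ℂ) (Y : ℕ → ℂ) (i : ℕ) : ℂ := 1 * (u ^ m)⁻¹ ^ i * Y i

variable {u : ℂ}

theorem ra_eq (hu : u ≠ 0) (h : Eqs D (u ^ 2) X Y) (i : ℕ) : ra D.m u X i =
    (if i = 0 then 1 else 0) + sT D.m (fun l => ind ℂ D.L₂ l * u ^ (D.m * l)) (rb D.m u Y) i := by
  have e : sT D.m (fun l => ind ℂ D.L₂ l * u ^ (D.m * l)) (rb D.m u Y) i =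
      (u ^ D.m) ^ i * sT D.m (ind ℂ D.L₂) Y i := by
    rw [sT, sT, ← tsum_mul_left]
    refine tsum_congr fun l => ?_
    rw [cf_sub, cf_sub]
    split_ifs with hl
    · obtain ⟨k, rfl⟩ := Nat.exists_eq_add_of_le hl
      unfold rb
      rw [coeff_pow_scale, Nat.add_sub_cancel_left, pow_mul, inv_pow]
      field_simp
      ring
    · simp
  rw [e, ra]
  split_ifs with hi
  · subst hi
    rw [h.x0]; field_simp; simp
  · rw [h.hx i (by omega)]; field_simp; simp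

theorem rb_eq (hu : u ≠ 0) (h : Eqs D (u ^ 2) X Y) (i : ℕ) (hi : 1 ≤ i) : rb D.m u Y i =
    sT D.m (fun l => ind ℂ D.L₁ l * u ^ (D.m * l)) (ra D.m u X) i := by
  rw [rb, h.hy i hi, sT, sT, ← tsum_mul_left, ← tsum_mul_left]
  refine tsum_congr fun l => ?_
  rw [cf_sub, cf_sub]
  split_ifs with hl
  · obtain ⟨k, rfl⟩ := Nat.exists_eq_add_of_le hl
    obtain ⟨n, hn⟩ : ∃ n, D.m * (i + k) = n + 1 :=
      ⟨_, (Nat.sub_add_cancel (Nat.mul_pos D.hm (by omega))).symm⟩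
    have e : (u ^ D.m) ^ i * (u ^ D.m) ^ k = u ^ (n + 1) := by rw [← pow_add, ← pow_mul, hn]
    unfold ra
    rw [coeff_pow_scale, Nat.add_sub_cancel_left, hn, Nat.add_sub_cancel, inv_pow, inv_pow]
    field_simp
    linear_combination (-(ind ℂ D.L₁ (i + k) * coeff k (PowerSeries.mk X ^ n) * u ^ (n + 1))) * e
  · simp

theorem ra_le (hu : u ≠ 0) (hu1 : ‖u‖ ≤ 1) (i : ℕ) (h : ‖X i‖ ≤ 5 * ‖u ^ 2‖ * 2 ^ i) :
    ‖ra D.m u X i‖ ≤ 5 * (10 * ‖u‖) ^ i := by
  have h0 : 0 < ‖u ^ 2‖ := norm_pos_iff.2 (pow_ne_zero 2 hu)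
  have h1 : ‖u‖ ^ D.m ≤ ‖u‖ := pow_le_of_le_one (norm_nonneg u) hu1 D.hm.ne'
  rw [ra, norm_mul, norm_mul, norm_inv, norm_pow (u ^ D.m), norm_pow u D.m]
  calc _ ≤ ‖u ^ 2‖⁻¹ * ‖u‖ ^ i * (5 * ‖u ^ 2‖ * 10 ^ i) := by
        gcongr
        exact h.trans (by gcongr; norm_num)
    _ = _ := by field_simp; ring

theorem rb_le (hu : u ≠ 0) (hu1 : 10 * ‖u‖ ≤ 1) (i : ℕ)
    (h : ‖Y i‖ ≤ (10 * ‖u ^ 2‖) ^ (D.m * i)) : ‖rb D.m u Y i‖ ≤ 5 * (10 * ‖u‖) ^ i := by
  have h0 : 0 < ‖u‖ := by positivity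
  rw [rb, one_mul, norm_mul, norm_pow, norm_inv, norm_pow, inv_pow, ← pow_mul]
  calc _ ≤ (‖u‖ ^ (D.m * i))⁻¹ * (10 * ‖u ^ 2‖) ^ (D.m * i) := by gcongr
    _ = (10 * ‖u‖) ^ (D.m * i) := by rw [norm_pow]; field_simp; ring
    _ ≤ (10 * ‖u‖) ^ i := pow_le_pow_of_le_one (by positivity) hu1 (Nat.le_mul_of_pos_left i D.hm)
    _ ≤ _ := by linarith [pow_pos (mul_pos (by norm_num : (0 : ℝ) < 10) h0) i]

theorem side_tail {m : ℕ} (hm : 0 < m) (L : Set ℕ) (f : ℕ → ℂ) (hu : ‖u‖ ≤ 1 / 20)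
    (hf : ∀ i, ‖f i‖ ≤ 5 * (10 * ‖u‖) ^ i) (i n : ℕ) :
    ‖sT m (fun l => ind ℂ L l * u ^ (m * l)) f i - ∑ l ∈ range (n + 1), ind ℂ L l * u ^ (m * l) *
      if i ≤ l then coeff (l - i) (PowerSeries.mk f ^ (m * l - 1)) else 0‖ ≤ 10 ^ n * ‖u ^ n‖ := by
  have h1 := sT_tail m (fun l => ind ℂ L l * u ^ (m * l)) f (r := 1) (A := 10) (c := 1)
    (q := 10 * ‖u‖) one_pos (by positivity) (by linarith) (fun n => by
      have := geo_le (q := 10 * ‖u‖) (by positivity) (by linarith) n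
      simp only [one_pow, mul_one]
      refine (sum_le_sum fun i _ => hf i).trans ?_
      rw [← mul_sum]; linarith) (fun l => by
      rw [norm_mul, norm_pow, one_mul, mul_one]
      calc _ ≤ 1 * ‖u‖ ^ (m * l) * 10 ^ (m * l) := by
            gcongr
            · exact norm_ind_le _ _
            · norm_num
            · exact Nat.sub_le _ _
        _ = (10 * ‖u‖) ^ (m * l) := by ring
        _ ≤ _ := pow_le_pow_of_le_one (by positivity) (by linarith)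
          (Nat.le_mul_of_pos_left l hm)) i (n + 1)
  refine h1.trans ?_
  have h2 : (1 - 10 * ‖u‖)⁻¹ ≤ 2 := by
    rw [inv_le_comm₀ (by linarith) two_pos]; linarith
  rw [norm_pow, ← mul_pow, one_pow, one_mul, one_mul, pow_succ, mul_assoc]
  refine mul_le_of_le_one_right (by positivity) ?_
  nlinarith [norm_nonneg u]

theorem coeff_mul_le (f g : ℕ → ℂ) {c c' ρ : ℝ} (hρ : 0 ≤ ρ) (hf : ∀ i, ‖f i‖ ≤ c * ρ ^ i)
    (hg : ∀ i, ‖g i‖ ≤ c' * ρ ^ i) (n : ℕ) :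
    ‖coeff n (PowerSeries.mk f * PowerSeries.mk g)‖ ≤ c * c' * (2 * ρ) ^ n := by
  have hc : 0 ≤ c := by simpa using (norm_nonneg _).trans (hf 0)
  have hc' : 0 ≤ c' := by simpa using (norm_nonneg _).trans (hg 0)
  rw [coeff_mul]
  refine (norm_sum_le _ _).trans ((sum_le_card_nsmul _ _ (c * c' * ρ ^ n) fun p hp => ?_).trans ?_)
  · rw [coeff_mk, coeff_mk, norm_mul, ← mem_antidiagonal.1 hp]
    exact (mul_le_mul (hf _) (hg _) (norm_nonneg _) (by positivity)).trans_eq (by ring)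
  · have : ((n + 1 : ℕ) : ℝ) ≤ 2 ^ n := by exact_mod_cast Nat.lt_two_pow_self
    rw [Nat.card_antidiagonal, nsmul_eq_mul]
    exact (mul_le_mul_of_nonneg_right this (by positivity)).trans_eq (by ring)

/-- the terms of the functional -/
noncomputable def at' (m : ℕ) (X Y : ℕ → ℂ) (n : ℕ) : ℂ :=
  coeff n (PowerSeries.mk X * PowerSeries.mk (flat m X)) * coeff n (PowerSeries.mk Y ^ 2)

theorem at_le (m : ℕ) {σ : ℝ} (hσ : 0 ≤ σ) (hX : ∀ i, ‖X i‖ ≤ 1 * 2 ^ i)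
    (hY : ∀ i, ‖Y i‖ ≤ 1 * σ ^ i) (n : ℕ) : ‖at' m X Y n‖ ≤ (m + 1) * (16 * σ) ^ n := by
  have h1 := coeff_mul_le X (flat m X) (c := 1) (c' := m + 1) (ρ := 4) (by norm_num)
    (fun i => (hX i).trans (by gcongr; norm_num)) (fun i => by
      have h2 : (i : ℝ) ≤ 2 ^ i := by exact_mod_cast Nat.lt_two_pow_self.le
      have h3 : (1 : ℝ) ≤ 2 ^ i := one_le_pow₀ one_le_two
      have h4 : ‖(m : ℂ) * i - 1‖ ≤ (m + 1) * 2 ^ i := by
        refine (norm_sub_le _ _).trans ?_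
        rw [norm_mul, Complex.norm_natCast, Complex.norm_natCast, norm_one]
        nlinarith [(Nat.cast_nonneg m : (0 : ℝ) ≤ m)]
      rw [flat, norm_mul]
      refine (mul_le_mul h4 (hX i) (norm_nonneg _) (by positivity)).trans_eq ?_
      rw [show (4 : ℝ) = 2 * 2 by norm_num, mul_pow]; ring) n
  have h2 := coeff_mul_le Y Y hσ hY hY n
  rw [at', norm_mul, pow_two]
  refine (mul_le_mul h1 h2 (norm_nonneg _) (by positivity)).trans_eq ?_
  rw [show 16 * σ = 2 * 4 * (2 * σ) by ring, mul_pow (2 * 4)]; ring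

theorem at_scale (m : ℕ) (hu : u ≠ 0) (n : ℕ) :
    at' m X Y n = u ^ 4 * at' m (ra m u X) (rb m u Y) n := by
  have e : PowerSeries.mk (ra m u X) * PowerSeries.mk (flat m (ra m u X)) =
      C ((u ^ 2)⁻¹ ^ 2) * rescale (u ^ m) (PowerSeries.mk X * PowerSeries.mk (flat m X)) := by
    rw [map_mul, pow_two (u ^ 2)⁻¹, map_mul, mul_mul_mul_comm]
    congr 1 <;> ext i <;> simp [ra, flat] <;> ring
  rw [at', at', e, coeff_C_mul, coeff_rescale]
  unfold rb
  rw [coeff_pow_scale, inv_pow (u ^ m)]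
  field_simp

end Pool.Agent.MP_098ecc_co.H10
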