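import Pool.Agent.MP_098ecc_co.H10.Test
import Pool.Agent.MP_098ecc_co.H10.Est
import Pool.Agent.MP_098ecc_co.H85.Defs

set_option autoImplicit false

namespace Pool.Agent.MP_098ecc_co.H10

open Complex Set Filter Topology MeasureTheory
open Pool.Agent.MP_098ecc_co.H97
open Pool.Agent.MP_098ecc_co.H85 (EvPer)

theorem summable_lin {r : ℝ} (h0 : 0 ≤ r) (h1 : r < 1) :
    Summable fun l : ℕ => ((l : ℝ) + 1) * r ^ l := by
  have := (summable_pow_mul_geometric_of_norm_lt_one 1 (r := r)
    (by rwa [Real.norm_of_nonneg h0])).add (summable_geometric_of_lt_one h0 h1)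
  simpa [add_mul] using this

theorem pair_tendsto (c : ℕ → ℂ) (hc : ∀ l, ‖c l‖ ≤ l + 1) {ε C a : ℝ}
    (hF : ∀ z : ℂ, ‖z‖ < 1 → ‖z - 1‖ < ε → ‖∑' l, c l * z ^ l‖ ≤ C) (ha : 0 < a) (ha1 : a < 1)
    (ha2 : a < ε / 2) {u : ℝ → ℂ} (hu : Continuous u) {ψ : ℤ → ℂ}
    (hψ : ∀ k : ℤ, ψ k = ∫ θ in (-a)..a, u θ * exp (k * θ * I))
    (hs : ∀ n : ℕ, Summable fun l => ‖c l‖ * ‖ψ (l - n)‖) :
    Tendsto (fun n : ℕ => ∑' l, c l * ψ (l - n)) atTop (𝓝 0) := by
  have hpi := Real.pi_gt_three
  have hab : -Real.pi < Real.pi := by linarith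
  obtain ⟨K, hK⟩ := (isCompact_Icc (a := -a) (b := a)).exists_bound_of_continuousOn hu.continuousOn
  have hK0 : 0 ≤ K := (norm_nonneg _).trans (hK 0 ⟨by linarith, ha.le⟩)
  have hr : ∀ᶠ r in 𝓝[<] (1 : ℝ), r ∈ Ioo (max 0 (1 - ε / 2)) 1 :=
    Ioo_mem_nhdsLT (max_lt one_pos (by linarith))
  have key : ∀ r ∈ Ioo (max 0 (1 - ε / 2)) 1, ∀ N, ∑ n ∈ Finset.range N,
      ‖(1 / (Real.pi - -Real.pi)) • ∑' l, c l * r ^ l * ψ (l - n)‖ ^ 2 ≤ (K * |C|) ^ 2 := by
    intro r hr N
    have h0 : 0 < r := (le_max_left _ _).trans_lt hr.1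
    have hn : ∀ θ : ℝ, ‖(r : ℂ) * exp (θ * I)‖ = r := fun θ => by
      rw [norm_mul, norm_exp_ofReal_mul_I, mul_one, norm_real, Real.norm_of_nonneg h0.le]
    have hb : ∀ (l : ℕ) (θ : ℝ), ‖c l * ((r : ℂ) * exp (θ * I)) ^ l‖ ≤ (l + 1) * r ^ l := by
      intro l θ
      rw [norm_mul, norm_pow, hn]
      exact mul_le_mul_of_nonneg_right (hc l) (by positivity)
    let G : ℝ → ℂ := fun θ => ∑' l, c l * ((r : ℂ) * exp (θ * I)) ^ l
    have cG : Continuous G := continuous_tsum (fun l => by fun_prop) (summable_lin h0.le hr.2) hb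
    let f : ℝ → ℂ := (Ioc (-a) a).indicator fun θ => u θ * G θ
    have hf : ∀ θ, ‖f θ‖ ≤ K * |C| := by
      intro θ
      by_cases h : θ ∈ Ioc (-a) a
      · simp only [f, indicator_of_mem h, norm_mul]
        refine mul_le_mul (hK θ (Ioc_subset_Icc_self h)) ((hF _ (by rw [hn]; exact hr.2) ?_).trans
          (le_abs_self C)) (norm_nonneg _) hK0
        have h1 : ‖exp (I * θ) - 1‖ ≤ ‖θ‖ := Real.norm_exp_I_mul_ofReal_sub_one_le
        have h2 : ‖θ‖ ≤ a := abs_le.2 ⟨h.1.le, h.2⟩
        have h3 : (r : ℂ) * exp (θ * I) - 1 = ((r - 1 : ℝ) : ℂ) * exp (θ * I) +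
          (exp (I * θ) - 1) := by push_cast; rw [mul_comm I]; ring
        rw [h3]
        refine (norm_add_le _ _).trans_lt ?_
        rw [norm_mul, norm_exp_ofReal_mul_I, mul_one, norm_real, Real.norm_of_nonpos
          (by linarith [hr.2])]
        linarith [(le_max_right _ _).trans_lt hr.1]
      · simp only [f, indicator_of_notMem h, norm_zero]; positivity
    have hP := hasSum_sq_fourierCoeffOn hab (f := f) (MemLp.of_bound
      ((hu.mul cG).aestronglyMeasurable.indicator measurableSet_Ioc) _ (.of_forall hf))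
    have hco : ∀ n : ℕ, fourierCoeffOn hab f n =
        (1 / (Real.pi - -Real.pi)) • ∑' l, c l * r ^ l * ψ (l - n) := by
      intro n
      rw [fourierCoeffOn_eq_integral]
      congr 1
      have e1 : ∀ x : ℝ, fourier (-n) (x : AddCircle (Real.pi - -Real.pi)) • f x =
          (Ioc (-a) a).indicator (fun θ => u θ * exp (-n * θ * I) * G θ) x := by
        intro x
        have : fourier (-n) (x : AddCircle (Real.pi - -Real.pi)) = exp (-n * x * I) := by
          rw [fourier_coe_apply]
          congr 1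
          have : (Real.pi : ℂ) ≠ 0 := by simp [Real.pi_ne_zero]
          push_cast
          rw [sub_neg_eq_add, ← two_mul]
          field_simp
        rw [this]
        by_cases h : x ∈ Ioc (-a) a
        · simp only [f, indicator_of_mem h, smul_eq_mul]; ring
        · simp [f, indicator_of_notMem h]
      simp only [e1]
      rw [intervalIntegral.integral_of_le hab.le, setIntegral_indicator measurableSet_Ioc,
        inter_eq_right.2 (Ioc_subset_Ioc (by linarith) (by linarith)),
        ← intervalIntegral.integral_of_le (by linarith)]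
      have := intervalIntegral.hasSum_integral_of_dominated_convergence (a := -a) (b := a)
        (μ := volume)
        (F := fun l θ => u θ * exp (-n * θ * I) * (c l * ((r : ℂ) * exp (θ * I)) ^ l))
        (f := fun θ => u θ * exp (-n * θ * I) * G θ) (fun l _ => K * ((l + 1) * r ^ l))
        (fun l => Continuous.aestronglyMeasurable (by fun_prop))
        (fun l => .of_forall fun θ hθ => by
          rw [uIoc_of_le (by linarith)] at hθ
          rw [norm_mul, norm_mul (u θ), show -(n : ℂ) * θ * I = ((-n * θ : ℝ) : ℂ) * I by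
            push_cast; ring, norm_exp_ofReal_mul_I, mul_one]
          exact mul_le_mul (hK θ (Ioc_subset_Icc_self hθ)) (hb l θ) (norm_nonneg _) hK0)
        (.of_forall fun _ _ => (summable_lin h0.le hr.2).mul_left K) intervalIntegrable_const
        (.of_forall fun θ _ => (Summable.of_norm_bounded (summable_lin h0.le hr.2)
          fun l => hb l θ).hasSum.mul_left _)
      rw [← this.tsum_eq]
      refine tsum_congr fun l => ?_
      rw [hψ, ← intervalIntegral.integral_const_mul]
      refine intervalIntegral.integral_congr fun θ _ => ?_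
      push_cast
      rw [sub_mul, sub_mul, sub_eq_add_neg, exp_add, mul_pow, ← exp_nat_mul]
      ring_nf
    simp only [← hco]
    have h2 := sum_le_hasSum ((Finset.range N).map ⟨_, Nat.cast_injective (R := ℤ)⟩)
      (fun _ _ => by positivity) hP
    rw [Finset.sum_map] at h2
    refine h2.trans ?_
    rw [smul_eq_mul, inv_mul_le_iff₀ (by linarith)]
    refine (Real.le_norm_self _).trans ((intervalIntegral.norm_integral_le_of_norm_le_const
      (C := (K * |C|) ^ 2) fun θ _ => ?_).trans_eq ?_)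
    · rw [norm_pow, norm_norm]; exact pow_le_pow_left₀ (norm_nonneg _) (hf θ) 2
    · rw [abs_of_pos (by linarith : 0 < Real.pi - -Real.pi), mul_comm]
  have abel : ∀ n : ℕ, Tendsto (fun r : ℝ => ∑' l, c l * r ^ l * ψ (l - n)) (𝓝[<] 1)
      (𝓝 (∑' l, c l * ψ (l - n))) := by
    intro n
    refine tendsto_tsum_of_dominated_convergence (hs n) (fun l => ?_) (hr.mono fun r hr l => ?_)
    · have : Continuous fun r : ℝ => c l * r ^ l * ψ (l - n) := by fun_prop
      simpa using tendsto_nhdsWithin_of_tendsto_nhds (this.tendsto 1)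
    · have h0 : 0 < r := (le_max_left _ _).trans_lt hr.1
      rw [norm_mul, norm_mul, norm_pow, norm_real, Real.norm_of_nonneg h0.le]
      exact mul_le_mul_of_nonneg_right (mul_le_of_le_one_right (norm_nonneg _)
        (pow_le_one₀ h0.le hr.2.le)) (norm_nonneg _)
  have h3 : Summable fun n : ℕ => ‖(1 / (Real.pi - -Real.pi)) • ∑' l, c l * ψ (l - n)‖ ^ 2 :=
    summable_of_sum_range_le (fun _ => by positivity) fun N => le_of_tendsto
      (tendsto_finsetSum _ fun n _ => ((abel n).const_smul _).norm.pow 2)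
      (hr.mono fun r hr => key r hr N)
  have h4 := (Real.continuous_sqrt.tendsto 0).comp h3.tendsto_atTop_zero
  simp only [Function.comp_def, Real.sqrt_sq (norm_nonneg _), Real.sqrt_zero] at h4
  have h5 := (tendsto_zero_iff_norm_tendsto_zero.2 h4).const_smul (Real.pi - -Real.pi)
  simpa only [smul_smul, mul_one_div_cancel (by linarith : Real.pi - -Real.pi ≠ 0), one_smul,
    smul_zero] using h5

theorem evPer_of_det (L : Set ℕ) (f p : ℕ → ℂ) (hf : Summable fun k => ‖f k‖)
    (hp : Summable fun k => ‖p k‖) (h0 : ∑' k, ‖f (k + 1)‖ < ‖f 0‖)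
    (hD : Tendsto (fun n => ∑' k, ind ℂ L (n + k) * f k +
      ∑ j ∈ Finset.range n, ind ℂ L (n - 1 - j) * p j) atTop (𝓝 0)) : EvPer L := by
  set γ := (‖f 0‖ - ∑' k, ‖f (k + 1)‖) / 4 with hγ
  have hγ0 : 0 < γ := by linarith
  obtain ⟨N, hN⟩ := ((tendsto_sum_nat_add fun k => ‖p k‖).eventually_lt_const hγ0).exists
  obtain ⟨n₀, hn₀⟩ := eventually_atTop.1 ((hD.norm.eventually_lt_const
    (by simpa using hγ0)).and (eventually_ge_atTop N))
  have hsum : ∀ n, Summable fun k => ind ℂ L (n + k) * f k := fun n => .of_norm_bounded hf fun k => by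
    rw [norm_mul]; exact mul_le_of_le_one_left (norm_nonneg _) (norm_ind_le _ _)
  have hpast : ∀ n, N ≤ n → ‖∑ j ∈ Finset.range n, ind ℂ L (n - 1 - j) * p j -
      ∑ j ∈ Finset.range N, ind ℂ L (n - 1 - j) * p j‖ < γ := by
    intro n hn
    obtain ⟨r, hr⟩ := Nat.exists_eq_add_of_le hn
    nth_rewrite 1 [hr]
    rw [Finset.sum_range_add, add_sub_cancel_left]
    refine lt_of_le_of_lt ((norm_sum_le _ _).trans ((Finset.sum_le_sum fun j _ => ?_).trans
      (((summable_nat_add_iff N).2 hp).sum_le_tsum (Finset.range r) fun _ _ => norm_nonneg _))) hN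
    rw [norm_mul, add_comm N]; exact mul_le_of_le_one_left (norm_nonneg _) (norm_ind_le _ _)
  have step : ∀ n n', n₀ ≤ n → n₀ ≤ n' → (∀ j < N, (n - 1 - j ∈ L ↔ n' - 1 - j ∈ L)) →
      (n ∈ L ↔ n' ∈ L) := by
    intro n n' hn hn' h
    by_contra hne
    have e1 : ∑ j ∈ Finset.range N, ind ℂ L (n - 1 - j) * p j =
        ∑ j ∈ Finset.range N, ind ℂ L (n' - 1 - j) * p j :=
      Finset.sum_congr rfl fun j hj => by
        rw [ind, ind, propext (h j (Finset.mem_range.1 hj))]
    have e2 : ‖ind ℂ L n - ind ℂ L n'‖ = 1 := by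
      unfold ind; split_ifs <;> simp_all
    have e3 : ‖∑' k, (ind ℂ L (n + (k + 1)) * f (k + 1) - ind ℂ L (n' + (k + 1)) * f (k + 1))‖ ≤
        ∑' k, ‖f (k + 1)‖ := by
      refine tsum_of_norm_bounded ((summable_nat_add_iff 1).2 hf).hasSum fun k => ?_
      rw [← sub_mul, norm_mul]
      refine mul_le_of_le_one_left (norm_nonneg _) ?_
      unfold ind; split_ifs <;> simp
    rw [((summable_nat_add_iff 1).2 (hsum n)).tsum_sub ((summable_nat_add_iff 1).2 (hsum n'))] at e3
    have a1 := (hn₀ n hn).1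
    have a2 := (hn₀ n' hn').1
    have a3 := hpast n (hn₀ n hn).2
    have a4 := hpast n' (hn₀ n' hn').2
    rw [(hsum n).tsum_eq_zero_add] at a1
    rw [(hsum n').tsum_eq_zero_add] at a2
    rw [← e1] at a4
    simp only [add_zero] at a1 a2
    generalize ∑' k, ind ℂ L (n + (k + 1)) * f (k + 1) = A at *
    generalize ∑' k, ind ℂ L (n' + (k + 1)) * f (k + 1) = A' at *
    generalize ∑ j ∈ Finset.range n, ind ℂ L (n - 1 - j) * p j = B at *
    generalize ∑ j ∈ Finset.range n', ind ℂ L (n' - 1 - j) * p j = B' at *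
    generalize ∑ j ∈ Finset.range N, ind ℂ L (n - 1 - j) * p j = E at *
    have e4 : (ind ℂ L n - ind ℂ L n') * f 0 = (ind ℂ L n * f 0 + A + B) -
      (ind ℂ L n' * f 0 + A' + B') - (A - A') - (B - E) + (B' - E) := by ring
    have e5 := congrArg norm e4
    rw [norm_mul, e2, one_mul] at e5
    have := norm_add_le ((ind ℂ L n * f 0 + A + B) -
      (ind ℂ L n' * f 0 + A' + B') - (A - A') - (B - E)) (B' - E)
    have := norm_sub_le ((ind ℂ L n * f 0 + A + B) -
      (ind ℂ L n' * f 0 + A' + B') - (A - A')) (B - E)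
    have := norm_sub_le ((ind ℂ L n * f 0 + A + B) - (ind ℂ L n' * f 0 + A' + B')) (A - A')
    have := norm_sub_le (ind ℂ L n * f 0 + A + B) (ind ℂ L n' * f 0 + A' + B')
    linarith
  have per : ∀ x y, x < y → (∀ j < N, (n₀ + x - 1 - j ∈ L ↔ n₀ + y - 1 - j ∈ L)) → EvPer L := by
    intro x y hxy h
    have h1 : ∀ i, ∀ j < N, (n₀ + x + i - 1 - j ∈ L ↔ n₀ + y + i - 1 - j ∈ L) := by
      intro i
      induction i with
      | zero => exact h
      | succ i ih =>
        rintro (_ | j) hj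
        · exact step _ _ (by omega) (by omega) ih
        · have := ih j (by omega)
          rwa [show n₀ + x + (i + 1) - 1 - (j + 1) = n₀ + x + i - 1 - j by omega,
            show n₀ + y + (i + 1) - 1 - (j + 1) = n₀ + y + i - 1 - j by omega]
    refine ⟨y - x, by omega, n₀ + x, fun n hn => ?_⟩
    obtain ⟨i, rfl⟩ := Nat.exists_eq_add_of_le hn
    rw [show n₀ + x + i + (y - x) = n₀ + y + i by omega]
    exact (step _ _ (by omega) (by omega) (h1 i)).symm
  obtain ⟨x, y, hxy, h⟩ := Finite.exists_ne_map_eq_of_infinite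
    (fun (x : ℕ) (j : Fin N) => n₀ + x - 1 - j ∈ L)
  rcases lt_or_gt_of_ne hxy with h1 | h1
  · exact per x y h1 fun j hj => Eq.to_iff (congrFun h ⟨j, hj⟩)
  · exact per y x h1 fun j hj => (Eq.to_iff (congrFun h ⟨j, hj⟩)).symm

theorem win_gen (L : Set ℕ) (w : ℕ → ℝ) (h1 : ∀ l, 1 ≤ w l) (hle : ∀ l, w l ≤ l + 1)
    (hmono : Monotone w) (hsub : ∀ n k, w (n + k) ≤ w n * w k)
    (hrat : Tendsto (fun n => w (n + 1) / w n) atTop (𝓝 1))
    (hsum : Summable fun k : ℕ => w (k + 1) / ((k : ℝ) + 1) ^ 2)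
    (hB : Bdd fun z => ∑' l, ind ℂ L l * w l * z ^ l) : EvPer L := by
  obtain ⟨β, hβ, ε, hε, C, hC⟩ := hB
  have hw0 : ∀ l, 0 < w l := fun l => one_pos.trans_le (h1 l)
  have hz : Summable fun k : ℕ => 1 / ((k : ℝ) + 1) ^ 2 :=
    hsum.of_nonneg_of_le (fun _ => by positivity) fun k => by gcongr; exact h1 _
  set Z := ∑' k : ℕ, 1 / ((k : ℝ) + 1) ^ 2 with hZ
  have hZ0 : 0 ≤ Z := tsum_nonneg fun _ => by positivity
  obtain ⟨u, K, ψ, hu, hψ, p0, p1, p2⟩ := exists_test (a := min (1 / 2) (ε / 4))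
    (η := 1 / (Z + 2)) (by positivity) ((min_le_left _ _).trans_lt (by norm_num)) (by positivity)
  have hn : ∀ l, ‖ind ℂ L l * w l * β ^ l‖ ≤ w l := fun l => by
    rw [norm_mul, norm_mul, norm_pow, hβ, one_pow, mul_one, norm_real,
      Real.norm_of_nonneg (hw0 l).le]
    exact mul_le_of_le_one_left (hw0 l).le (norm_ind_le _ _)
  have hK : 0 ≤ K := by simpa using (norm_nonneg _).trans (p2 1 one_ne_zero)
  have s1 : Summable fun k : ℕ => w k * ‖ψ k‖ := by
    refine (summable_nat_add_iff 1).1 ((hsum.mul_left K).of_nonneg_of_le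
      (fun k => mul_nonneg (hw0 _).le (norm_nonneg _)) fun k => ?_)
    refine (mul_le_mul_of_nonneg_left (p2 _ (by omega)) (hw0 _).le).trans_eq ?_
    push_cast; ring
  have hs : ∀ n : ℕ, Summable fun l => ‖ind ℂ L l * w l * β ^ l‖ * ‖ψ (l - n)‖ := by
    intro n
    refine (summable_nat_add_iff n).1 ((s1.mul_left (w n)).of_nonneg_of_le
      (fun k => by positivity) fun k => ?_)
    rw [← mul_assoc, Nat.cast_add, add_sub_cancel_right, add_comm k]
    exact mul_le_mul_of_nonneg_right ((hn _).trans (hsub _ _)) (norm_nonneg _)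
  have hT := pair_tendsto (fun l => ind ℂ L l * w l * β ^ l) (fun l => (hn l).trans (hle l))
    (ε := ε) (C := C) (fun z hz hz' => by
      have := hC (β * z) (by rwa [norm_mul, hβ, one_mul])
        (by rwa [← mul_sub_one, norm_mul, hβ, one_mul])
      simpa only [mul_pow, mul_assoc] using this) (by positivity)
    ((min_le_left _ _).trans_lt (by norm_num)) ((min_le_right _ _).trans_lt (by linarith)) hu hψ hs
  have hβ0 : β ≠ 0 := by rintro rfl; simp at hβ
  have nf : ∀ k : ℕ, ‖β ^ k * ψ k‖ = ‖ψ k‖ := fun k => by simp [hβ]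
  have np : ∀ k : ℕ, ‖β⁻¹ ^ (k + 1) * ψ (-(k + 1))‖ = ‖ψ (-(k + 1))‖ := fun k => by simp [hβ]
  have s2 : Summable fun k : ℕ => ‖β ^ k * ψ k‖ := s1.of_nonneg_of_le (fun _ => norm_nonneg _)
    fun k => by rw [nf]; exact le_mul_of_one_le_left (norm_nonneg _) (h1 k)
  have s3 : Summable fun k : ℕ => ‖β⁻¹ ^ (k + 1) * ψ (-(k + 1))‖ :=
    (hz.mul_left K).of_nonneg_of_le (fun _ => norm_nonneg _) fun k => by
      rw [np]
      refine (p2 _ (by omega)).trans_eq ?_
      push_cast; rw [neg_sq]; ring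
  have r1 : ∀ k, Tendsto (fun n => w (n + k) / w n) atTop (𝓝 1) := by
    intro k
    induction k with
    | zero => simp [(hw0 _).ne']
    | succ k ih =>
      have := ((tendsto_add_atTop_iff_nat k).2 hrat).mul ih
      rw [mul_one] at this
      refine this.congr fun n => ?_
      rw [div_mul_div_cancel₀ (hw0 _).ne', add_assoc]
  refine evPer_of_det L (fun k => β ^ k * ψ k) (fun k => β⁻¹ ^ (k + 1) * ψ (-(k + 1))) s2 s3 ?_ ?_
  · have a1 : ∑' k : ℕ, ‖β ^ (k + 1) * ψ (k + 1 : ℕ)‖ ≤ 1 / (Z + 2) * Z := by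
      rw [hZ, ← tsum_mul_left]
      refine ((summable_nat_add_iff 1).2 s2).tsum_le_tsum (fun k => ?_) (hz.mul_left _)
      rw [nf]
      refine (p1 _ (by omega)).trans_eq ?_
      push_cast; ring
    have a2 := norm_sub_norm_le 1 (ψ 0)
    rw [norm_sub_rev, norm_one] at a2
    have a3 : 1 / (Z + 2) * Z + 1 / (Z + 2) < 1 := by
      rw [← mul_add_one, one_div_mul_eq_div, div_lt_one (by positivity)]; linarith
    simp only [pow_zero, one_mul, Nat.cast_zero]
    linarith
  · have t1 : Tendsto (fun n => ∑' k, ind ℂ L (n + k) * ((1 - w (n + k) / w n : ℝ) : ℂ) *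
        (β ^ k * ψ k)) atTop (𝓝 (∑' _ : ℕ, 0)) := by
      refine tendsto_tsum_of_dominated_convergence (s1.mul_left 2) (fun k => ?_)
        (.of_forall fun n k => ?_)
      · refine squeeze_zero_norm (fun n => ?_)
          (by simpa using ((r1 k).const_sub 1).abs.mul_const ‖β ^ k * ψ k‖)
        rw [norm_mul, norm_mul, norm_real, mul_assoc]
        simpa [hβ] using mul_le_of_le_one_left (by positivity) (norm_ind_le L (n + k))
      · rw [norm_mul, norm_mul, nf, norm_real, ← mul_assoc]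
        refine mul_le_mul_of_nonneg_right ((mul_le_of_le_one_left (norm_nonneg _)
          (norm_ind_le _ _)).trans ((norm_sub_le _ _).trans ?_)) (norm_nonneg _)
        have : w (n + k) / w n ≤ w k := by rw [div_le_iff₀' (hw0 _)]; exact hsub _ _
        rw [norm_one, Real.norm_of_nonneg (div_pos (hw0 _) (hw0 _)).le]
        linarith [h1 k]
    have t2 : Tendsto (fun n => ∑' j, if j < n then ind ℂ L (n - 1 - j) *
        ((1 - w (n - 1 - j) / w n : ℝ) : ℂ) * (β⁻¹ ^ (j + 1) * ψ (-(j + 1))) else 0) atTop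
        (𝓝 (∑' _ : ℕ, 0)) := by
      refine tendsto_tsum_of_dominated_convergence s3 (fun j => ?_) (.of_forall fun n j => ?_)
      · rw [← tendsto_add_atTop_iff_nat (j + 1)]
        have := (((r1 (j + 1)).inv₀ one_ne_zero).const_sub 1).abs.mul_const
          ‖β⁻¹ ^ (j + 1) * ψ (-(j + 1))‖
        rw [inv_one, sub_self, abs_zero, zero_mul] at this
        refine squeeze_zero_norm (fun n => ?_) this
        rw [if_pos (by omega), norm_mul, norm_mul, norm_real, mul_assoc,
          show n + (j + 1) - 1 - j = n by omega, inv_div]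
        exact mul_le_of_le_one_left (by positivity) (norm_ind_le L n)
      · split_ifs
        · rw [norm_mul, norm_mul, norm_real]
          refine mul_le_of_le_one_left (norm_nonneg _) (mul_le_one₀ (norm_ind_le _ _)
            (norm_nonneg _) ?_)
          have : w (n - 1 - j) / w n ≤ 1 := (div_le_one (hw0 _)).2 (hmono (by omega))
          have := div_pos (hw0 (n - 1 - j)) (hw0 n)
          rw [Real.norm_of_nonneg (by linarith)]; linarith
        · rw [norm_zero]; exact norm_nonneg _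
    have t3 : Tendsto (fun n : ℕ => (β⁻¹ ^ n / w n) *
        ∑' l, ind ℂ L l * w l * β ^ l * ψ (l - n)) atTop (𝓝 0) := by
      refine squeeze_zero_norm (fun n => ?_) (by simpa using hT.norm)
      rw [norm_mul]
      refine mul_le_of_le_one_left (norm_nonneg _) ?_
      rw [norm_div, norm_pow, norm_inv, hβ, inv_one, one_pow, norm_real,
        Real.norm_of_nonneg (hw0 n).le, div_le_one (hw0 n)]
      exact h1 n
    have := (t1.add t2).add t3
    simp only [tsum_zero, add_zero] at this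
    refine this.congr fun n => ?_
    have hw : (w n : ℂ) ≠ 0 := by exact_mod_cast (hw0 n).ne'
    have s4 : Summable fun l => ind ℂ L l * w l * β ^ l * ψ (l - n) :=
      .of_norm (by simpa only [norm_mul _ (ψ _)] using hs n)
    have s5 : Summable fun k => ind ℂ L (n + k) * (β ^ k * ψ k) := .of_norm_bounded s2 fun k => by
      rw [norm_mul]; exact mul_le_of_le_one_left (norm_nonneg _) (norm_ind_le _ _)
    have s6 := ((summable_nat_add_iff n).2 s4).mul_left (β⁻¹ ^ n / w n)
    have e1 : ∀ k, ind ℂ L (n + k) * ((1 - w (n + k) / w n : ℝ) : ℂ) * (β ^ k * ψ k) =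
        ind ℂ L (n + k) * (β ^ k * ψ k) - β⁻¹ ^ n / w n *
          (ind ℂ L (k + n) * w (k + n) * β ^ (k + n) * ψ ((k + n : ℕ) - n)) := by
      intro k
      rw [Nat.cast_add, add_sub_cancel_right, add_comm k, inv_pow]
      push_cast; field_simp; ring
    rw [← s4.sum_add_tsum_nat_add n, tsum_congr e1, s5.tsum_sub s6, tsum_mul_left,
      tsum_eq_sum (s := Finset.range n) fun j hj => if_neg (by simpa using hj),
      ← Finset.sum_range_reflect (fun l => ind ℂ L l * w l * β ^ l * ψ (l - n)), mul_add,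
      Finset.mul_sum]
    have e2 : ∑ j ∈ Finset.range n, ind ℂ L (n - 1 - j) * (β⁻¹ ^ (j + 1) * ψ (-(j + 1))) =
        ∑ j ∈ Finset.range n, ((if j < n then ind ℂ L (n - 1 - j) *
        ((1 - w (n - 1 - j) / w n : ℝ) : ℂ) * (β⁻¹ ^ (j + 1) * ψ (-(j + 1))) else 0) +
        β⁻¹ ^ n / w n * (ind ℂ L (n - 1 - j) * w (n - 1 - j) * β ^ (n - 1 - j) *
          ψ ((n - 1 - j : ℕ) - n))) := by
      refine Finset.sum_congr rfl fun j hj => ?_
      obtain ⟨i, rfl⟩ := Nat.exists_eq_add_of_lt (Finset.mem_range.1 hj)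
      rw [if_pos (by omega), show j + i + 1 - 1 - j = i by omega,
        show (i : ℤ) - (j + i + 1 : ℕ) = -(j + 1) by push_cast; ring, inv_pow, inv_pow]
      push_cast; field_simp; ring
    rw [e2, Finset.sum_add_distrib]
    ring

end Pool.Agent.MP_098ecc_co.H10
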