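import Pool.Agent.MP_098ecc_co.H85.Side

set_option autoImplicit false

namespace Pool.Agent.MP_098ecc_co.H10

open PowerSeries Finset
open Pool.Agent.MP_098ecc_co.H85 (sw coeff_sw exists_fix)

section Euler
variable {R : Type*} [CommRing R]

/-- the Euler operator -/
noncomputable def eul (f : R⟦X⟧) : R⟦X⟧ := mk fun n => (n : R) * coeff n f

@[simp] theorem coeff_eul (f : R⟦X⟧) (n : ℕ) : coeff n (eul f) = (n : R) * coeff n f := by
  simp [eul]

theorem const_eul (f : R⟦X⟧) : constantCoeff (eul f) = 0 := by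
  rw [← coeff_zero_eq_constantCoeff_apply]; simp

theorem eul_mul (f g : R⟦X⟧) : eul (f * g) = eul f * g + f * eul g := by
  ext n
  simp only [coeff_eul, map_add, coeff_mul, mul_sum, ← sum_add_distrib]
  refine sum_congr rfl fun p hp => ?_
  rw [← mem_antidiagonal.1 hp]
  push_cast; ring

theorem eul_sub (f g : R⟦X⟧) : eul (f - g) = eul f - eul g := by
  ext n; simp [mul_sub]

theorem eul_one : eul (1 : R⟦X⟧) = 0 := by
  ext n; rw [coeff_eul, coeff_one]; split_ifs with h <;> simp [h]

theorem eul_C (c : R) : eul (C c) = 0 := by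
  ext n; rw [coeff_eul, coeff_C]; split_ifs with h <;> simp [h]

theorem eul_X : eul (X : R⟦X⟧) = X := by
  ext n; rw [coeff_eul, coeff_X]; split_ifs with h <;> simp [h]

theorem eul_pow_succ (f : R⟦X⟧) (n : ℕ) :
    eul (f ^ (n + 1)) = C ((n : R) + 1) * (f ^ n * eul f) := by
  induction n with
  | zero => simp
  | succ n ih =>
    rw [pow_succ, eul_mul, ih]
    push_cast
    simp only [map_add, map_one]
    ring

theorem eul_rescale (a : R) (f : R⟦X⟧) : eul (rescale a f) = rescale a (eul f) := by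
  ext n; simp only [coeff_eul, coeff_rescale]; ring

/-- no coefficient above degree `n` -/
def Low (n : ℕ) (f : R⟦X⟧) : Prop := ∀ j, n < j → coeff j f = 0

theorem Low.mul {n n' : ℕ} {f g : R⟦X⟧} (hf : Low n f) (hg : Low n' g) : Low (n + n') (f * g) := by
  intro j hj
  rw [coeff_mul]
  refine sum_eq_zero fun p hp => ?_
  have := mem_antidiagonal.1 hp
  by_cases h : n < p.1
  · rw [hf _ h, zero_mul]
  · rw [hg _ (by omega), mul_zero]

theorem Low.pow {n : ℕ} {f : R⟦X⟧} (hf : Low n f) (k : ℕ) : Low (n * k) (f ^ k) := by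
  induction k with
  | zero => intro j hj; rw [pow_zero, coeff_one, if_neg (by omega)]
  | succ k ih => rw [pow_succ, mul_add, mul_one]; exact ih.mul hf

end Euler

variable {K : Type*} [CommRing K] [Algebra ℚ K]

theorem cancel_nat {n : ℕ} (hn : n ≠ 0) {x : K} (h : (n : K) * x = 0) : x = 0 := by
  have : IsUnit (n : K) := by
    rw [← map_natCast (algebraMap ℚ K)]
    exact (IsUnit.mk0 _ (by exact_mod_cast hn)).map _
  exact this.mul_right_eq_zero.1 h

theorem coeff_pow_jac (ξ ζ : K⟦X⟧) (h : ξ * ζ = 1) (r : ℕ) :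
    coeff r (ξ ^ r * (1 - eul ξ * ζ)) = if r = 0 then 1 else 0 := by
  rcases r with _ | r
  · simp [const_eul]
  · rw [if_neg (Nat.succ_ne_zero r)]
    have h1 : ξ ^ (r + 1) * (1 - eul ξ * ζ) = ξ ^ (r + 1) - ξ ^ r * eul ξ := by
      linear_combination (-(ξ ^ r * eul ξ)) * h
    have h2 := congrArg (coeff (r + 1)) (eul_pow_succ ξ r)
    rw [coeff_eul, coeff_C_mul] at h2
    refine cancel_nat (Nat.succ_ne_zero r) ?_
    rw [h1, map_sub, mul_sub, h2]
    push_cast; ring

/-- Lagrange inversion -/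
theorem exists_psi (ξ ζ : K⟦X⟧) (hinv : ξ * ζ = 1) :
    ∃ ψ : K⟦X⟧ →ₐ[K] K⟦X⟧, ψ (X * ζ) = X ∧
      ∀ g n, coeff n (ψ g) = coeff n (g * (ξ ^ n * (1 - eul ξ * ζ))) := by
  set α : K⟦X⟧ := X * ζ with hα
  have h0 : constantCoeff α = 0 := by simp [hα]
  have h1 : IsUnit (coeff 1 α) := by
    rw [hα, coeff_succ_X_mul, coeff_zero_eq_constantCoeff_apply]
    exact (IsUnit.of_mul_eq_one_right _ hinv).map _
  have hs : HasSubst α := HasSubst.of_constantCoeff_zero' h0
  have hβ : HasSubst (α.substInvOfIsUnit h1) := HasSubst.substInvOfIsUnit α h1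
  have lag : ∀ (H : K⟦X⟧) (n : ℕ),
      coeff n (H.subst α * (ξ ^ n * (1 - eul ξ * ζ))) = coeff n H := by
    intro H n
    have e : H = ∑ i ∈ range (n + 1), C (coeff i H) * X ^ i +
        X ^ (n + 1) * PowerSeries.mk fun i => coeff (i + (n + 1)) H := by
      conv_lhs => rw [eq_X_pow_mul_shift_add_trunc (n + 1) H, add_comm]
      congr 1
      ext j
      simp [coeff_trunc, coeff_X_pow]
    conv_lhs => rw [e, ← coe_substAlgHom hs]
    simp only [map_add, map_sum, map_mul, map_pow, substAlgHom_X, add_mul, sum_mul]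
    generalize (substAlgHom hs : K⟦X⟧ →ₐ[K] K⟦X⟧) = φ
    rw [hα, mul_pow, mul_assoc, mul_assoc, coeff_X_pow_mul', if_neg (by omega), add_zero,
      sum_eq_single n]
    · have : φ (C (coeff n H)) = C (coeff n H) := φ.commutes _
      rw [this, mul_assoc, coeff_C_mul, mul_pow, mul_assoc, coeff_X_pow_mul', if_pos le_rfl,
        ← mul_assoc, ← mul_pow, mul_comm ζ, hinv, one_pow, Nat.sub_self]
      simp [const_eul]
    · intro i hi hin
      have hi' := mem_range.1 hi
      have : φ (C (coeff i H)) = C (coeff i H) := φ.commutes _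
      obtain ⟨r, rfl⟩ : ∃ r, n = i + r := ⟨n - i, by omega⟩
      rw [this, mul_assoc, coeff_C_mul, mul_pow, mul_assoc, coeff_X_pow_mul', if_pos (by omega),
        pow_add ξ, ← mul_assoc, ← mul_assoc, ← mul_pow, mul_comm ζ, hinv, one_pow, one_mul,
        Nat.add_sub_cancel_left, coeff_pow_jac ξ ζ hinv, if_neg (by omega), mul_zero]
    · simp
  refine ⟨substAlgHom hβ, ?_, fun g n => ?_⟩
  · rw [coe_substAlgHom]; exact subst_substInvOfIsUnit_right α h0 h1
  · rw [← lag, coe_substAlgHom, subst_comp_subst_apply hβ hs, subst_substInvOfIsUnit_left α h0 h1,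
      X_subst]

theorem low_of_eul {N P : K⟦X⟧⟦X⟧} (d : ℕ) (h : eul N = P * N) (hP0 : coeff 0 P = 0)
    (hP : ∀ l, Low (d * l) (coeff l P)) (hN : Low 0 (coeff 0 N)) (l : ℕ) :
    Low (d * l) (coeff l N) := by
  induction l using Nat.strong_induction_on with
  | _ l ih =>
  rcases l with _ | l
  · simpa using hN
  intro j hj
  have h1 := congrArg (fun f => coeff j (coeff (l + 1) f)) h
  simp only [coeff_eul, coeff_mul _ P, map_sum] at h1
  rw [← map_natCast (C : K →+* K⟦X⟧), coeff_C_mul, sum_eq_zero] at h1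
  · exact cancel_nat (Nat.succ_ne_zero l) h1
  · intro p hp
    have hp' := mem_antidiagonal.1 hp
    rcases Nat.eq_zero_or_pos p.1 with h0 | h0
    · rw [h0, hP0]; simp
    · refine ((hP p.1).mul (ih p.2 (by omega))) j ?_
      rwa [← mul_add, hp']

/-- the loop equation -/
theorem loop_low (d : ℕ) (H : K⟦X⟧) {M U : K⟦X⟧⟦X⟧} (hM : eul M = U * M) (hM0 : coeff 0 M = 1)
    (hU0 : coeff 0 U = 0)
    (hU : ∀ l k, 0 < l → 0 < k → coeff (d * l + k) (H ^ l) = coeff k (coeff l U)) (l k : ℕ)
    (hk : 0 < k) : coeff k (coeff (l + 1) M) = coeff (d + k) (H * coeff l M) := by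
  let G : K⟦X⟧⟦X⟧ := mk fun l => if l = 0 then 0 else H ^ l
  have hG : (1 - C H * X) * G = C H * X := by
    ext1 n
    rw [sub_mul, one_mul, map_sub, mul_assoc, coeff_C_mul, coeff_C_mul]
    rcases n with _ | n
    · simp [G]
    · rw [coeff_succ_X_mul, coeff_X]
      rcases n with _ | n
      · simp [G]
      · simp [G, pow_succ']
  have h1 : eul ((1 - C H * X) * rescale (X ^ d) M) =
      (rescale (X ^ d) U - G) * ((1 - C H * X) * rescale (X ^ d) M) := by
    rw [eul_mul, eul_rescale, hM, map_mul, eul_sub, eul_one, eul_mul, eul_C, eul_X]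
    linear_combination (rescale (X ^ d) M) * hG
  have h2 := low_of_eul d h1 (by rw [map_sub, coeff_rescale, hU0]; simp [G]) (fun l j hj => by
    rcases Nat.eq_zero_or_pos l with rfl | hl
    · rw [map_sub, coeff_rescale, hU0]; simp [G]
    obtain ⟨k, rfl⟩ : ∃ k, j = d * l + k := ⟨j - d * l, by omega⟩
    simp only [map_sub, coeff_rescale, G, coeff_mk, if_neg hl.ne', ← pow_mul]
    rw [hU l k hl (by omega), add_comm, coeff_X_pow_mul, sub_self]) (fun j hj => by
    simp only [coeff_zero_eq_constantCoeff, map_mul, map_sub, map_one, constantCoeff_X, mul_zero,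
      sub_zero, one_mul]
    rw [← coeff_zero_eq_constantCoeff_apply, coeff_rescale, hM0, pow_zero, one_mul, coeff_one,
      if_neg hj.ne']) (l + 1) (d * (l + 1) + k) (by omega)
  rw [sub_mul, one_mul, map_sub, mul_assoc, coeff_C_mul, coeff_succ_X_mul, coeff_rescale,
    coeff_rescale, map_sub, ← pow_mul, ← pow_mul, add_comm _ k, coeff_X_pow_mul,
    mul_left_comm, show k + d * (l + 1) = (d + k) + d * l by ring, coeff_X_pow_mul] at h2
  exact sub_eq_zero.1 h2

theorem eq_zero_of_eul {Z U : K⟦X⟧⟦X⟧} (h : eul Z = U * Z) (hU : coeff 0 U = 0)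
    (hZ : coeff 0 Z = 0) : Z = 0 := by
  ext1 l
  induction l using Nat.strong_induction_on with
  | _ l ih =>
  rcases l with _ | l
  · simpa using hZ
  have h1 := congrArg (coeff (l + 1)) h
  rw [coeff_eul, coeff_mul, sum_eq_zero] at h1
  · exact cancel_nat (Nat.succ_ne_zero l) h1
  · intro p hp
    have hp' := mem_antidiagonal.1 hp
    rcases Nat.eq_zero_or_pos p.1 with h0 | h0
    · rw [h0, hU, zero_mul]
    · rw [ih p.2 (by omega)]; simp

theorem sw_sw {T : Type*} [CommRing T] (f : T⟦X⟧⟦X⟧) : sw (sw f) = f := by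
  ext i j; rw [coeff_sw, coeff_sw]

/-- the exponential of a two variable series -/
theorem exists_exp (E : K⟦X⟧⟦X⟧) (h0 : coeff 0 E = 0) (h1 : coeff 0 (sw E) = 0) :
    ∃ M : K⟦X⟧⟦X⟧, coeff 0 M = 1 ∧ eul M = eul E * M ∧ coeff 0 (sw M) = 1 ∧
      eul (sw M) = eul (sw E) * sw M := by
  obtain ⟨f, hf⟩ := exists_fix (K := K⟦X⟧) (ι := Unit)
    (fun f _ => 1 + mk fun l => algebraMap ℚ K⟦X⟧ ((l : ℚ)⁻¹) * coeff l (eul E * f ())) (by
      intro n f g h _
      obtain ⟨c, hc⟩ := h ()
      rw [X_pow_dvd_iff]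
      intro m hm
      simp only [map_sub, coeff_mk, add_sub_add_left_eq_sub]
      rw [← mul_sub, ← map_sub, ← mul_sub, hc, mul_left_comm, coeff_X_pow_mul']
      split_ifs with h2
      · rw [show m - n = 0 by omega]; simp [coeff_mul]
      · simp)
  have hf' := congrFun hf ()
  set M := f () with hM
  have a0 : coeff 0 M = 1 := by rw [← hf']; simp
  have a1 : eul M = eul E * M := by
    ext1 l
    conv_lhs => rw [← hf']
    rcases l with _ | l
    · simp [coeff_mul]
    · have : ((l + 1 : ℕ) : ℚ) ≠ 0 := by exact_mod_cast Nat.succ_ne_zero l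
      rw [coeff_eul, map_add, coeff_one, if_neg (Nat.succ_ne_zero l), zero_add, coeff_mk,
        ← map_natCast (algebraMap ℚ K⟦X⟧), ← mul_assoc, ← map_mul, mul_inv_cancel₀ this]
      simp
  have hc : ∀ f : K⟦X⟧⟦X⟧, eul (sw (eul (sw f))) = sw (eul (sw (eul f))) := by
    intro f
    ext i j
    simp only [coeff_eul, coeff_sw, ← map_natCast (C : K →+* K⟦X⟧), coeff_C_mul]
    ring
  have a2 : sw (eul (sw M)) - sw (eul (sw E)) * M = 0 := by
    refine eq_zero_of_eul (U := eul E) ?_ (by simp) ?_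
    · rw [eul_sub, eul_mul, hc, hc, a1, map_mul, eul_mul, map_add, map_mul, map_mul, sw_sw, sw_sw]
      ring
    · have e1 : coeff 0 (sw (eul (sw E))) = 0 := by
        ext j
        simp only [coeff_eul, coeff_sw, ← map_natCast (C : K →+* K⟦X⟧), coeff_C_mul, h0]
        simp
      have e2 : coeff 0 (sw (eul (sw M))) = 0 := by
        ext j
        simp only [coeff_eul, coeff_sw, ← map_natCast (C : K →+* K⟦X⟧), coeff_C_mul, a0, coeff_one]
        split_ifs with h <;> simp [h]
      rw [map_sub, e2, coeff_zero_eq_constantCoeff, map_mul, ← coeff_zero_eq_constantCoeff, e1]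
      simp
  refine ⟨M, a0, a1, ?_, ?_⟩
  · ext l
    rw [coeff_sw, coeff_one]
    split_ifs with h
    · rw [h, a0]; simp
    · have h2 := congrArg (fun f => coeff 0 (coeff l f)) a1
      simp only [coeff_eul, coeff_mul _ (eul E), map_sum] at h2
      rw [← map_natCast (C : K →+* K⟦X⟧), coeff_C_mul, sum_eq_zero] at h2
      · exact cancel_nat h h2
      · intro p _
        have : coeff 0 (coeff p.1 E) = 0 := by rw [← coeff_sw, h1]; simp
        rw [coeff_zero_eq_constantCoeff] at this ⊢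
        simp [this]
  · have := congrArg sw (sub_eq_zero.1 a2)
    rwa [map_mul, sw_sw, sw_sw] at this

end Pool.Agent.MP_098ecc_co.H10
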