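import Pool.Agent.MP_098ecc_co.H10.Ring
import Pool.Agent.MP_098ecc_co.H10.Est
import Pool.Agent.MP_098ecc_co.H97.Defs2

set_option autoImplicit false

namespace Pool.Agent.MP_098ecc_co.H10

open PowerSeries Finset Filter Topology Asymptotics
open Pool.Agent.MP_098ecc_co.H97
open Pool.Agent.MP_098ecc_co.H85 (zz zz_one_one wt count)

theorem exists_phi {S : Type*} [CommRing S] [Algebra ℚ S] (ν : S) (N : ℕ) (h : ν ^ N = 0) :
    ∃ Φ : ℚ⟦X⟧ →+* S, ∀ p : Polynomial ℚ, Φ p = Polynomial.aeval ν p := by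
  have key : ∀ p q : Polynomial ℚ, (∀ i < N, p.coeff i = q.coeff i) →
      Polynomial.aeval ν p = Polynomial.aeval ν q := by
    intro p q hpq
    obtain ⟨c, hc⟩ : Polynomial.X ^ N ∣ p - q := Polynomial.X_pow_dvd_iff.2 fun i hi => by
      rw [Polynomial.coeff_sub, hpq i hi, sub_self]
    rw [← sub_eq_zero, ← map_sub, hc, map_mul, map_pow, Polynomial.aeval_X, h, zero_mul]
  have k2 : ∀ p : Polynomial ℚ, Polynomial.aeval ν (trunc N (p : ℚ⟦X⟧)) = Polynomial.aeval ν p :=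
    fun p => key _ _ fun i hi => by rw [coeff_trunc, if_pos hi, Polynomial.coeff_coe]
  refine ⟨⟨⟨⟨fun f => Polynomial.aeval ν (trunc N f), ?_⟩, fun f g => ?_⟩, ?_, fun f g => ?_⟩, k2⟩
  · simpa using k2 1
  · rw [← map_mul]
    refine key _ _ fun i hi => ?_
    rw [coeff_trunc, if_pos hi, ← Polynomial.coeff_coe, Polynomial.coe_mul,
      coeff_mul_eq_coeff_trunc_mul_trunc _ _ hi]
  · simp
  · simp

theorem unit_aux {S : Type*} [CommRing S] {u z : S} {N : ℕ} (hu : u ^ N = 0) (h : u ∣ z) :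
    IsUnit (1 + z) := by
  obtain ⟨c, rfl⟩ := h
  exact IsNilpotent.isUnit_one_add ⟨N, by rw [mul_pow, hu, zero_mul]⟩

/-- functions bounded near the origin -/
noncomputable def Bd : Subalgebra ℚ (ℂ → ℂ) where
  carrier := {f | f =O[𝓝[≠] 0] fun _ => (1 : ℝ)}
  mul_mem' := fun hf hg => by simpa using IsBigO.mul hf hg
  add_mem' := fun hf hg => IsBigO.add hf hg
  algebraMap_mem' := fun c => isBigO_const_const _ one_ne_zero _

/-- functions vanishing to order `N` -/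
noncomputable def Id (N : ℕ) : Ideal Bd where
  carrier := {f | f.1 =O[𝓝[≠] 0] fun u => u ^ N}
  add_mem' := fun hf hg => IsBigO.add hf hg
  zero_mem' := isBigO_zero _ _
  smul_mem' := fun c _ hf => by
    have := IsBigO.mul c.2 (IsBigO.norm_right hf)
    simp only [one_mul] at this
    exact this.of_norm_right

theorem exists_quot (N : ℕ) : ∃ (S : Type) (_ : CommRing S) (_ : Algebra ℚ S) (π : Bd →+* S),
    ∀ f g, π f = π g ↔ f - g ∈ Id N :=
  ⟨Bd ⧸ Id N, inferInstance, inferInstance, Ideal.Quotient.mk _, fun _ _ => Ideal.Quotient.eq⟩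

/-- evaluation -/
noncomputable def evu (u : ℂ) : Bd →ₐ[ℚ] ℂ := (Pi.evalAlgHom ℚ (fun _ => ℂ) u).comp Bd.val

theorem evu_apply (u : ℂ) (f : Bd) : evu u f = f.1 u := rfl

theorem small (δ : ℝ) (h : 0 < δ) : ∀ᶠ u in 𝓝[≠] (0 : ℂ), u ≠ 0 ∧ ‖u‖ ≤ δ := by
  refine eventually_mem_nhdsWithin.and (mem_nhdsWithin_of_mem_nhds ?_)
  simpa [Metric.closedBall] using Metric.closedBall_mem_nhds (0 : ℂ) h

/-- the coordinate -/
noncomputable def uu : Bd := ⟨fun u => u, .of_bound 1 ((small 1 one_pos).mono fun u h => by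
  simpa using h.2)⟩

theorem mem_of_le {f : ℂ → ℂ} (c : ℝ) (i : ℕ)
    (h : ∀ᶠ u in 𝓝[≠] (0 : ℂ), ‖f u‖ ≤ c * (10 * ‖u‖) ^ i) :
    ∃ hf : f ∈ Bd, ∀ N ≤ i, (⟨f, hf⟩ : Bd) ∈ Id N := by
  have key : ∀ N ≤ i, f =O[𝓝[≠] 0] fun u : ℂ => u ^ N := by
    intro N hN
    refine .of_bound (|c| * 10 ^ i) ?_
    filter_upwards [h, small 1 one_pos] with u h1 h2
    refine h1.trans ?_
    rw [mul_pow, ← mul_assoc, norm_pow]
    exact mul_le_mul (by gcongr; exact le_abs_self c)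
      (pow_le_pow_of_le_one (norm_nonneg u) h2.2 hN) (by positivity) (by positivity)
  exact ⟨(key 0 i.zero_le).norm_right.congr_right fun u => by simp, key⟩

theorem Af_eq (m : ℕ) (X Y : ℕ → ℂ) : Af m X Y = (∑' n, at' m X Y n) / 2 := rfl

theorem ev_eq (P : Polynomial (Polynomial ℚ)) (t a : ℂ) :
    ev P t a = P.eval₂ (Polynomial.aeval t : Polynomial ℚ →ₐ[ℚ] ℂ) a := by
  rw [ev, ← Polynomial.eval₂_evalRingHom, Polynomial.eval₂_map]
  congr 1
  ext <;> simp

theorem map_alg {R S : Type*} [CommRing R] [CommRing S] [Algebra ℚ R] [Algebra ℚ S] (π : R →+* S)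
    (c : ℚ) : π (algebraMap ℚ R c) = algebraMap ℚ S c :=
  RingHom.congr_fun (Subsingleton.elim (π.comp (algebraMap ℚ R)) _) c

variable {S : Type} [CommRing S] [Algebra ℚ S]

theorem side_quot {m : ℕ} (hm : 0 < m) (L : Set ℕ) (N : ℕ) (π : Bd →+* S)
    (hπ : ∀ f g, π f = π g ↔ f - g ∈ Id N) (Φ : ℚ⟦X⟧ →+* S)
    (hΦ : ∀ c, Φ (C c) = algebraMap ℚ _ c) (x : ℕ → ℚ) (hx : ∀ l, (x (m * l) : ℂ) = ind ℂ L l)
    (a : ℕ → Bd) (ha : ∀ᶠ u in 𝓝[≠] (0 : ℂ), ∀ i, ‖(a i).1 u‖ ≤ 5 * (10 * ‖u‖) ^ i) (i : ℕ)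
    (b : Bd) (hb : ∀ᶠ u in 𝓝[≠] (0 : ℂ),
      b.1 u = sT m (fun l => ind ℂ L l * u ^ (m * l)) (fun j => (a j).1 u) i) :
    π b = ∑ l ∈ range (N + 1), Φ (C (x (m * l))) * π uu ^ (m * l) * if i ≤ l then
        coeff (l - i) (map π (PowerSeries.mk a) ^ (m * l - 1)) else 0 := by
  have : π b = π (∑ l ∈ range (N + 1),
      algebraMap ℚ Bd (x (m * l)) * uu ^ (m * l) * if i ≤ l then
        coeff (l - i) (PowerSeries.mk a ^ (m * l - 1)) else 0) := by
    rw [hπ]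
    refine IsBigO.of_bound (10 ^ N) ?_
    filter_upwards [ha, hb, small (1 / 20) (by norm_num)] with u h1 h2 h3
    refine le_of_eq_of_le ?_ (side_tail hm L _ h3.2 h1 i N)
    rw [← evu_apply, map_sub, evu_apply, h2, map_sum]
    congr 2
    refine sum_congr rfl fun l _ => ?_
    rw [map_mul, map_mul, AlgHom.commutes, map_pow, eq_ratCast, hx]
    congr 1
    split_ifs
    · have e : (PowerSeries.mk fun j => (a j).1 u) =
          map (evu u : Bd →+* ℂ) (PowerSeries.mk a) := by ext j; simp [evu_apply]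
      rw [e, ← map_pow, coeff_map]; rfl
    · simp
  rw [this, map_sum]
  refine sum_congr rfl fun l _ => ?_
  rw [map_mul, map_mul, hΦ, map_pow, map_alg]
  congr 1
  split_ifs
  · rw [← map_pow, coeff_map]
  · simp

theorem af_tail (m : ℕ) {X Y : ℕ → ℂ} {σ : ℝ} (hσ : 0 ≤ σ) (hσ1 : 16 * σ ≤ 1 / 2)
    (hX : ∀ i, ‖X i‖ ≤ 1 * 2 ^ i) (hY : ∀ i, ‖Y i‖ ≤ 1 * σ ^ i) (n : ℕ) :
    ‖Af m X Y - (∑ k ∈ range n, at' m X Y k) / 2‖ ≤ (m + 1) * (16 * σ) ^ n := by
  have hb := at_le m hσ hX hY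
  have hg := hasSum_geometric_of_lt_one (r := 16 * σ) (by positivity) (by linarith)
  have hs : Summable (at' m X Y) := .of_norm_bounded (hg.mul_left _).summable hb
  rw [Af_eq, ← hs.sum_add_tsum_nat_add n, ← sub_div, add_sub_cancel_left, norm_div,
    div_le_iff₀ (by simp)]
  refine (tsum_of_norm_bounded (hg.mul_left ((m + 1) * (16 * σ) ^ n))
    fun l => (hb (l + n)).trans_eq (by ring)).trans ?_
  have h2 : (1 - 16 * σ)⁻¹ ≤ 2 := by
    rw [inv_le_comm₀ (by linarith) two_pos]; linarith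
  simp only [Complex.norm_ofNat]
  gcongr

theorem link_quot (D : Dat) (D₁ D₂ : Set ℕ) (h₁ : ∀ k, 0 < k → (k ∈ D₁ ↔ ∃ l ∈ D.L₁, k = D.m * l))
    (h₂ : ∀ k, 0 < k → (k ∈ D₂ ↔ ∃ l ∈ D.L₂, k = D.m * l)) (P : Polynomial (Polynomial ℚ))
    (hP : Polynomial.aeval (-(X ^ 2 * (C (1 / 2) +
      PowerSeries.mk fun n => (count D₁ D₂ n : ℚ))) : ℚ⟦X⟧) P = 0)
    (XX YY : ℂ → ℕ → ℂ) (h : ∀ᶠ u in 𝓝[≠] (0 : ℂ), Eqs D (u ^ 2) (XX u) (YY u) ∧
      (∀ i, ‖XX u i‖ ≤ 5 * ‖u ^ 2‖ * 2 ^ i) ∧ ∀ i, ‖YY u i‖ ≤ (10 * ‖u ^ 2‖) ^ (D.m * i))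
    (N : ℕ) (π : Bd →+* S) (hπ : ∀ f g, π f = π g ↔ f - g ∈ Id (N + 1)) :
    (fun u => ev P (u ^ 2) (Af D.m (XX u) (YY u))) =O[𝓝[≠] 0] fun u => u ^ (N + 1) := by
  classical
  have hm := D.hm
  have ha : ∀ᶠ u in 𝓝[≠] (0 : ℂ), ∀ i, ‖ra D.m u (XX u) i‖ ≤ 5 * (10 * ‖u‖) ^ i := by
    filter_upwards [h, small 1 one_pos] with u h1 h2 i using ra_le h2.1 h2.2 i (h1.2.1 i)
  have hb : ∀ᶠ u in 𝓝[≠] (0 : ℂ), ∀ i, ‖rb D.m u (YY u) i‖ ≤ 5 * (10 * ‖u‖) ^ i := by
    filter_upwards [h, small (1 / 10) (by norm_num)] with u h1 h2 i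
    exact rb_le h2.1 (by linarith [h2.2]) i (h1.2.2 i)
  choose a1 a2 using fun i => mem_of_le 5 i (ha.mono fun u hu => hu i)
  choose b1 b2 using fun i => mem_of_le 5 i (hb.mono fun u hu => hu i)
  have hπ0 : ∀ f, π f = 0 ↔ f ∈ Id (N + 1) := fun f => by rw [← map_zero π, hπ, sub_zero]
  have hu : π uu ^ (N + 1) = 0 := by
    rw [← map_pow, hπ0]
    exact isBigO_refl _ _
  obtain ⟨Φ, hΦ⟩ := exists_phi (π uu ^ 2) (N + 1) (by rw [← pow_mul, mul_comm, pow_mul, hu]; simp)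
  have hX : Φ X = π uu ^ 2 := by simpa using hΦ Polynomial.X
  have hC : ∀ c, Φ (C c) = algebraMap ℚ _ c := fun c => by simpa using hΦ (Polynomial.C c)
  have hw : ∀ (E L : Set ℕ), 0 ∉ L → (∀ k, 0 < k → (k ∈ E ↔ ∃ l ∈ L, k = D.m * l)) →
      ∃ x : ℕ → ℚ, x 0 = 0 ∧ (∀ k, ¬ D.m ∣ k → x k = 0) ∧ (∀ l, (x (D.m * l) : ℂ) = ind ℂ L l) ∧
        ∀ e, x (e + 1) = ((if e + 1 ∈ E then 1 else 0 : ℕ) : ℚ) := by
    intro E L h0 hE
    refine ⟨fun k => if ∃ l ∈ L, k = D.m * l then 1 else 0, if_neg ?_, fun k hk => if_neg ?_,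
      fun l => ?_, fun e => ?_⟩
    · rintro ⟨l, hl, e⟩
      rcases mul_eq_zero.1 e.symm with e | e
      · exact hm.ne' e
      · exact h0 (e ▸ hl)
    · rintro ⟨l, -, rfl⟩; exact hk (dvd_mul_right _ _)
    · simp [ind, hm.ne', apply_ite ((↑) : ℚ → ℂ)]
    · simp [hE _ e.succ_pos]
  obtain ⟨x, x0, x1, x2, x3⟩ := hw D₁ D.L₁ D.z₁ h₁
  obtain ⟨y, y0, y1, y2, y3⟩ := hw D₂ D.L₂ D.z₂ h₂
  let a : ℕ → Bd := fun i => ⟨_, a1 i⟩
  let b : ℕ → Bd := fun i => ⟨_, b1 i⟩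
  have hp : ∀ i, coeff i (map π (PowerSeries.mk a)) = (if i = 0 then 1 else 0) +
      ∑ l ∈ range (N + 1 + 1), Φ (C (y (D.m * l))) * π uu ^ (D.m * l) * if i ≤ l then
        coeff (l - i) (map π (PowerSeries.mk b) ^ (D.m * l - 1)) else 0 := by
    intro i
    rw [← side_quot hm D.L₂ (N + 1) π hπ Φ hC y y2 b hb i (a i - if i = 0 then 1 else 0), map_sub,
      coeff_map, coeff_mk]
    · split_ifs <;> simp
    · filter_upwards [h, self_mem_nhdsWithin] with u h1 h2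
      rw [← evu_apply, map_sub, evu_apply, sub_eq_iff_eq_add']
      refine (ra_eq h2 h1.1 i).trans ?_
      split_ifs <;> simp [b]
  have hL := link_ring (π uu) hm (Nat.succ_pos N) hu Φ hX x y x1 y1 x0 y0
    (map π (PowerSeries.mk a)) (map π (PowerSeries.mk b)) (by
      rw [hp, if_pos rfl]
      refine unit_aux hu ?_
      refine Finset.dvd_sum fun l _ => ?_
      rcases l with _ | l
      · simp [y0]
      · exact ((dvd_pow_self _ (Nat.mul_pos hm l.succ_pos).ne').mul_left _).mul_right _)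
    (by
      rw [coeff_map, coeff_mk, ← map_one π, hπ]
      refine IsBigO.of_bound 0 (h.mono fun u hu => ?_)
      simp [b, rb, hu.1.y0])
    (fun j hj => by
      rw [coeff_map, coeff_mk, hπ0]; exact a2 j _ hj.le)
    (fun j hj => by
      rw [coeff_map, coeff_mk, hπ0]; exact b2 j _ hj.le)
    (fun i hi => by
      rw [coeff_map, coeff_mk]
      refine side_quot hm D.L₁ (N + 1) π hπ Φ hC x x2 a ha i (b i) ?_
      filter_upwards [h, self_mem_nhdsWithin] with u h1 h2 using rb_eq h2 h1.1 i hi) hp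
  have hz := zz_one_one D₁ D₂
  simp only [wt, cond_true, cond_false, ← x3, ← y3] at hz
  rw [hz] at hL
  have hA : ∀ n, ∀ᶠ u in 𝓝[≠] (0 : ℂ), ‖Af D.m (XX u) (YY u) -
      (∑ k ∈ range n, at' D.m (XX u) (YY u) k) / 2‖ ≤ (D.m + 1) * (10 * ‖u‖) ^ n := by
    intro n
    filter_upwards [h, small (1 / 20) (by norm_num)] with u h1 h2
    have e1 : ‖u ^ 2‖ ≤ ‖u‖ / 20 := by rw [norm_pow]; nlinarith [h2.2, norm_nonneg u]
    refine (af_tail D.m (σ := 10 * ‖u ^ 2‖) (by positivity) (by linarith [h2.2])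
      (fun i => (h1.2.1 i).trans (by gcongr; linarith [h2.2])) (fun i => (h1.2.2 i).trans ?_)
      n).trans ?_
    · rw [one_mul]
      exact pow_le_pow_of_le_one (by positivity) (by linarith [h2.2]) (Nat.le_mul_of_pos_left i hm)
    · exact mul_le_mul_of_nonneg_left (pow_le_pow_left₀ (by positivity)
        (by linarith [norm_nonneg u]) n) (by positivity)
  obtain ⟨A1, -⟩ := mem_of_le _ 0 (hA 0)
  simp only [range_zero, sum_empty, zero_div, sub_zero] at A1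
  obtain ⟨A2, A3⟩ := mem_of_le _ _ (hA ((N + 1) * 2 + 1))
  have e1 : π ⟨_, A1⟩ = π (uu ^ 4 * algebraMap ℚ Bd (1 / 2) * ∑ k ∈ range ((N + 1) * 2 + 1),
      coeff k (PowerSeries.mk a * (C (D.m : Bd) * eul (PowerSeries.mk a) - PowerSeries.mk a)) *
        coeff k (PowerSeries.mk b ^ 2)) := by
    rw [hπ]
    refine IsBigO.congr' (A3 (N + 1) (by omega)) ?_ EventuallyEq.rfl
    filter_upwards [self_mem_nhdsWithin] with u hu
    rw [← evu_apply u (_ - _), map_sub, map_mul, map_mul, map_pow, AlgHom.commutes, map_sum]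
    simp only [evu_apply, uu]
    congr 1
    rw [sum_congr rfl fun k _ => at_scale D.m hu k, ← mul_sum, mul_div_assoc, mul_assoc]
    congr 1
    rw [div_eq_inv_mul]
    congr 1
    · simp
    refine sum_congr rfl fun k _ => ?_
    have e : ∀ c : ℕ → Bd, (PowerSeries.mk fun j => (c j).1 u) =
          map (evu u : Bd →+* ℂ) (PowerSeries.mk c) := by intro c; ext j; simp [evu_apply]
    have e' : PowerSeries.mk (flat D.m (ra D.m u (XX u))) = map (evu u : Bd →+* ℂ)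
        (C (D.m : Bd) * eul (PowerSeries.mk a) - PowerSeries.mk a) := by
      ext j
      rw [coeff_map, map_sub, coeff_C_mul, coeff_eul]
      simp only [coeff_mk, map_sub, map_mul, map_natCast, flat]
      change _ = _ * (_ * ra D.m u (XX u) j) - ra D.m u (XX u) j
      ring
    rw [at', e', show PowerSeries.mk (ra D.m u (XX u)) = _ from e a,
      show PowerSeries.mk (rb D.m u (YY u)) = _ from e b, ← map_pow,
      ← map_mul (PowerSeries.map (evu u : Bd →+* ℂ)), coeff_map, coeff_map]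
    rfl
  have e2 : π ⟨_, A1⟩ = Φ (-(X ^ 2 * (C (1 / 2) +
      PowerSeries.mk fun n => (count D₁ D₂ n : ℚ)))) := by
    have e3 : ∀ f : Bd⟦X⟧, map π (eul f) = eul (map π f) := fun f => by
      ext j; rw [coeff_eul, coeff_map, coeff_map, coeff_eul, map_mul, map_natCast]
    have e4 : (2 : S) * algebraMap ℚ _ (1 / 2) = 1 := by
      rw [← map_ofNat (algebraMap ℚ S) 2, ← map_mul]; simp
    rw [e1]
    simp only [map_mul, map_pow, map_sum, map_neg, map_add, map_one, ← coeff_map, map_sub, e3, hX,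
      hC, map_alg, map_natCast] at hL ⊢
    linear_combination (π uu ^ 2 * algebraMap ℚ _ (1 / 2)) * hL - (π uu ^ 4 * Φ
      (PowerSeries.mk fun n => (count D₁ D₂ n : ℚ))) * e4
  have e6 : π (P.eval₂ (Polynomial.aeval (uu ^ 2) : Polynomial ℚ →ₐ[ℚ] Bd) ⟨_, A1⟩) = 0 := by
    rw [Polynomial.hom_eval₂, e2, ← map_zero Φ, ← hP, Polynomial.aeval_def, Polynomial.hom_eval₂]
    congr 1
    ext
    · simp [hC, PowerSeries.algebraMap_apply']
    · simp [hX, PowerSeries.algebraMap_apply']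
  rw [hπ0] at e6
  refine IsBigO.congr_left e6 fun u => ?_
  rw [← evu_apply, ev_eq]
  refine (Polynomial.hom_eval₂ _ _ (evu u : Bd →+* ℂ) _).trans ?_
  congr 1
  ext
  · simp
  · simp [evu_apply, uu]

theorem zero_of_flat {g : ℂ → ℂ} (hg : AnalyticAt ℂ g 0)
    (h : ∀ N : ℕ, (fun u => g (u ^ 2)) =O[𝓝[≠] 0] fun u : ℂ => u ^ (N + 1)) :
    ∀ᶠ t in 𝓝 (0 : ℂ), g t = 0 := by
  by_contra hne
  obtain ⟨n, k, hk, hk0, e⟩ := hg.exists_eventuallyEq_pow_smul_nonzero_iff.2 hne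
  have h2 : Tendsto (fun u : ℂ => u ^ 2) (𝓝[≠] 0) (𝓝 0) :=
    tendsto_nhdsWithin_of_tendsto_nhds (by simpa using (continuous_pow 2).tendsto (0 : ℂ))
  obtain ⟨c, hc⟩ := (h (2 * n)).bound
  have h3 : (fun u => k (u ^ 2)) =O[𝓝[≠] 0] fun u : ℂ => u := by
    refine .of_bound c ?_
    filter_upwards [hc, h2.eventually e, self_mem_nhdsWithin] with u h4 h5 h6
    have h7 : 0 < ‖u ^ (2 * n)‖ := norm_pos_iff.2 (pow_ne_zero _ h6)
    rw [h5, sub_zero, smul_eq_mul, ← pow_mul, norm_mul, pow_succ u (2 * n), norm_mul,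
      mul_left_comm] at h4
    exact le_of_mul_le_mul_left h4 h7
  exact hk0 (tendsto_nhds_unique (hk.continuousAt.tendsto.comp h2)
    (h3.trans_tendsto (tendsto_nhdsWithin_of_tendsto_nhds tendsto_id)))

theorem link_small (D : Dat) (D₁ D₂ : Set ℕ)
    (h₁ : ∀ k, 0 < k → (k ∈ D₁ ↔ ∃ l ∈ D.L₁, k = D.m * l))
    (h₂ : ∀ k, 0 < k → (k ∈ D₂ ↔ ∃ l ∈ D.L₂, k = D.m * l)) (P : Polynomial (Polynomial ℚ))
    (hP : Polynomial.aeval (-(X ^ 2 * (C (1 / 2) +
      PowerSeries.mk fun n => (count D₁ D₂ n : ℚ))) : ℚ⟦X⟧) P = 0) : Link D P := by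
  obtain ⟨η, hm, hη⟩ : ∃ η : ℝ, (1 + η) ^ D.m < 3 / 2 ∧ 0 < η := by
    have : ContinuousAt (fun η : ℝ => (1 + η) ^ D.m) 0 := by fun_prop
    have h3 : ∀ᶠ η in 𝓝 (0 : ℝ), (1 + η) ^ D.m < 3 / 2 :=
      this.eventually_lt continuousAt_const (by norm_num)
    exact ((h3.filter_mono nhdsWithin_le_nhds).and
      (eventually_mem_nhdsWithin (s := Set.Ioi 0))).exists
  refine ⟨η, hη, fun t₁ ht₁ XX YY h dX dY => zero_of_flat ?_ fun N => ?_⟩
  · set U := Metric.ball (0 : ℂ) (min t₁ (1 / 320)) with hU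
    have hs : U ⊆ Metric.ball 0 t₁ := Metric.ball_subset_ball (min_le_left _ _)
    have hA : DifferentiableOn ℂ (fun t => Af D.m (XX t) (YY t)) U := by
      simp only [Af_eq]
      refine DifferentiableOn.div_const (Complex.differentiableOn_tsum_of_summable_norm
        (u := fun n => (D.m + 1) * (16 * (1 / 32)) ^ n) ((summable_geometric_of_lt_one
          (by norm_num) (by norm_num)).mul_left _) (fun n => ?_) Metric.isOpen_ball
        fun n t ht => ?_) _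
      · simp only [at', pow_two, coeff_mul, coeff_mk, flat]
        refine .mul (.fun_sum fun p _ => ?_) (.fun_sum fun p _ => ?_)
        · exact ((dX _).mono hs).mul (((dX _).mono hs).const_mul _)
        · exact ((dY _).mono hs).mul ((dY _).mono hs)
      · have h3 : ‖t‖ < 1 / 320 := (mem_ball_zero_iff.1 ht).trans_le (min_le_right _ _)
        obtain ⟨h4, h5⟩ := h t (hs ht)
        refine at_le D.m (by norm_num) (fun i => (X_le hη.le hm.le h4 h5 i).trans ?_)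
          (fun i => (Y_le hη.le hm.le h4 h5 (by linarith) i).trans ?_) n
        · gcongr; linarith
        · rw [one_mul]
          exact (pow_le_pow_of_le_one (by positivity) (by linarith)
            (Nat.le_mul_of_pos_left i D.hm)).trans (by gcongr; linarith)
    refine DifferentiableOn.analyticAt (s := U) ?_ (Metric.ball_mem_nhds _ (by positivity))
    simp only [ev_eq, Polynomial.eval₂_eq_sum, Polynomial.sum]
    exact .fun_sum fun n _ => (Polynomial.differentiable_aeval _).differentiableOn.mul (hA.pow n)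
  · obtain ⟨S, _, _, π, hπ⟩ := exists_quot (N + 1)
    refine link_quot D D₁ D₂ h₁ h₂ P hP (fun u => XX (u ^ 2)) (fun u => YY (u ^ 2)) ?_ N π hπ
    have h2 : Tendsto (fun u : ℂ => u ^ 2) (𝓝[≠] 0) (𝓝 0) :=
      tendsto_nhdsWithin_of_tendsto_nhds (by simpa using (continuous_pow 2).tendsto (0 : ℂ))
    filter_upwards [h2.eventually (Metric.ball_mem_nhds _ ht₁),
      h2.eventually (Metric.closedBall_mem_nhds _ (by norm_num : (0 : ℝ) < 1 / 80))] with u h3 h6
    obtain ⟨h4, h5⟩ := h _ h3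
    exact ⟨h4, X_le hη.le hm.le h4 h5, Y_le hη.le hm.le h4 h5 (by simpa using h6)⟩

theorem exists_bez {A : ℚ⟦X⟧} (h : IsAlgebraic (Polynomial ℚ) A) :
    ∃ P δ, Bez P δ ∧ Polynomial.aeval A P = 0 := by
  let R := ℚ⟦X⟧
  let Ω := FractionRing R
  let K := FractionRing (Polynomial ℚ)
  have hinj : Function.Injective (algebraMap (Polynomial ℚ) R) := by
    intro a b hab
    apply Polynomial.coe_injective ℚ
    simpa [R, PowerSeries.algebraMap_apply'] using hab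
  have hinjR : Function.Injective (algebraMap R Ω) := IsFractionRing.injective R Ω
  have hinjΩ : Function.Injective (algebraMap (Polynomial ℚ) Ω) := by
    rw [IsScalarTower.algebraMap_eq (Polynomial ℚ) R Ω]
    exact hinjR.comp hinj
  have : FaithfulSMul (Polynomial ℚ) Ω := (faithfulSMul_iff_algebraMap_injective _ _).2 hinjΩ
  let : Algebra K Ω := FractionRing.liftAlgebra (Polynomial ℚ) Ω
  have h1 : IsIntegral K (algebraMap R Ω A) :=
    ((IsFractionRing.isAlgebraic_iff (Polynomial ℚ) K Ω).1 h.algebraMap).isIntegral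
  obtain ⟨a, b, hab⟩ := (minpoly.irreducible h1).separable
  obtain ⟨β, hβ0, hβ⟩ := IsLocalization.integerNormalization_spec
    (nonZeroDivisors (Polynomial ℚ)) (minpoly K (algebraMap R Ω A))
  obtain ⟨c₁, hc₁, h₁⟩ := IsLocalization.integerNormalization_spec
    (nonZeroDivisors (Polynomial ℚ)) a
  obtain ⟨c₂, hc₂, h₂⟩ := IsLocalization.integerNormalization_spec
    (nonZeroDivisors (Polynomial ℚ)) b
  have h0 := IsLocalization.integerNormalization_aeval_eq_zero (nonZeroDivisors (Polynomial ℚ)) _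
    (minpoly.aeval K (algebraMap R Ω A))
  generalize IsLocalization.integerNormalization (nonZeroDivisors (Polynomial ℚ))
    (minpoly K (algebraMap R Ω A)) = P at hβ h0
  generalize IsLocalization.integerNormalization (nonZeroDivisors (Polynomial ℚ)) a = U at h₁
  generalize IsLocalization.integerNormalization (nonZeroDivisors (Polynomial ℚ)) b = V at h₂
  have e : Polynomial.C c₂ * U * P + Polynomial.C c₁ * V * P.derivative =
      Polynomial.C (c₁ * c₂ * β) := by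
    refine Polynomial.map_injective _ (IsFractionRing.injective (Polynomial ℚ) K) ?_
    simp only [Polynomial.map_add, Polynomial.map_mul, Polynomial.map_C,
      ← Polynomial.derivative_map, hβ, h₁, h₂, Polynomial.derivative_smul, map_mul]
    simp only [Algebra.smul_def, Polynomial.algebraMap_apply]
    linear_combination (Polynomial.C (algebraMap _ K c₁) * Polynomial.C (algebraMap _ K c₂) *
      Polynomial.C (algebraMap _ K β)) * hab
  refine ⟨P, c₁ * c₂ * β, ⟨nonZeroDivisors.ne_zero (mul_mem (mul_mem hc₁ hc₂) hβ0),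
    fun t x h3 h4 h5 => h4 ?_⟩, hinjR ?_⟩
  · have := congrArg (Polynomial.eval₂ (Polynomial.aeval t : Polynomial ℚ →ₐ[ℚ] ℂ) x) e
    rw [ev_eq] at h3 h5
    rw [Polynomial.eval₂_add, Polynomial.eval₂_mul,
      Polynomial.eval₂_mul (q := P.derivative), h3, h5,
      Polynomial.eval₂_C] at this
    simpa using this.symm
  · rw [← Polynomial.aeval_algebraMap_apply, h0, map_zero]

theorem link (D : Dat) (D₁ D₂ : Set ℕ)
    (h₁ : ∀ n, 0 < n → (n ∈ D₁ ↔ ∃ l ∈ D.L₁, n = D.m * l))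
    (h₂ : ∀ n, 0 < n → (n ∈ D₂ ↔ ∃ l ∈ D.L₂, n = D.m * l))
    (h : IsAlgebraic (Polynomial ℚ) (PowerSeries.mk fun n => (count D₁ D₂ n : ℚ))) :
    ∃ P δ, Bez P δ ∧ Link D P := by
  have hX : IsAlgebraic (Polynomial ℚ) (X : ℚ⟦X⟧) := by
    simpa [PowerSeries.algebraMap_apply'] using
      isAlgebraic_algebraMap (R := Polynomial ℚ) (A := ℚ⟦X⟧) Polynomial.X
  have hC : IsAlgebraic (Polynomial ℚ) (C (1 / 2) : ℚ⟦X⟧) := by
    simpa [PowerSeries.algebraMap_apply'] using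
      isAlgebraic_algebraMap (R := Polynomial ℚ) (A := ℚ⟦X⟧) (Polynomial.C (1 / 2))
  obtain ⟨P, δ, h3, h4⟩ := exists_bez ((hX.pow 2).mul (hC.add h)).neg
  exact ⟨P, δ, h3, link_small D D₁ D₂ h₁ h₂ P h4⟩

end Pool.Agent.MP_098ecc_co.H10
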