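import Pool.Agent.MP_098ecc_co.H10.Alg
import Pool.Agent.MP_098ecc_co.H85.Main

set_option autoImplicit false

namespace Pool.Agent.MP_098ecc_co.H10

open PowerSeries Finset
open Pool.Agent.MP_098ecc_co.H85 (zz Rec rec_zz)

variable {S : Type*} [CommRing S]

theorem sum_mult {m : ℕ} (hm : 0 < m) (g : ℕ → S) (hg : ∀ k, ¬ m ∣ k → g k = 0) (n : ℕ) :
    ∑ k ∈ range (m * n + 1), g k = ∑ l ∈ range (n + 1), g (m * l) := by
  symm
  refine sum_bij_ne_zero (fun l _ _ => m * l) (fun l hl _ => ?_) (fun a _ _ b _ _ h => ?_)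
    (fun k hk h => ?_) fun _ _ _ => rfl
  · have := Nat.mul_le_mul_left m (Nat.lt_succ_iff.1 (mem_range.1 hl))
    exact mem_range.2 (by omega)
  · exact Nat.eq_of_mul_eq_mul_left hm h
  · obtain ⟨l, rfl⟩ : m ∣ k := by by_contra h'; exact h (hg k h')
    exact ⟨l, mem_range.2 (Nat.lt_succ_iff.2 (Nat.le_of_mul_le_mul_left
      (Nat.lt_succ_iff.1 (mem_range.1 hk)) hm)), h, rfl⟩

theorem eul_expand {m : ℕ} (hm : m ≠ 0) (f : S⟦X⟧) :
    eul (expand m hm f) = expand m hm (C (m : S) * eul f) := by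
  ext j
  rw [coeff_eul, coeff_expand, coeff_expand]
  split_ifs with h
  · obtain ⟨i, rfl⟩ := h
    rw [Nat.mul_div_cancel_left _ (Nat.pos_of_ne_zero hm), coeff_C_mul, coeff_eul]
    push_cast; ring
  · simp

theorem side_expand {m n : ℕ} (hm : 0 < m) (hn : 0 < n) (w : ℕ → S) (hw : ∀ k, ¬ m ∣ k → w k = 0)
    (hw0 : w 0 = 0) (α : S⟦X⟧) (j : ℕ) :
    ∑ e ∈ range (m * n - 1 + 1), (w (e + 1) *
      if j ≤ e + 1 then coeff (e + 1 - j) (expand m hm.ne' α ^ e) else 0) =
    if m ∣ j then ∑ l ∈ range (n + 1), w (m * l) *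
      if j / m ≤ l then coeff (l - j / m) (α ^ (m * l - 1)) else 0 else 0 := by
  have h1 := sum_mult hm (fun k => w k *
    if j ≤ k then coeff (k - j) (expand m hm.ne' α ^ (k - 1)) else 0)
    (fun k hk => by rw [hw k hk, zero_mul]) n
  rw [sum_range_succ', hw0, zero_mul, add_zero] at h1
  rw [Nat.sub_add_cancel (Nat.mul_pos hm hn)]
  refine h1.trans ?_
  split_ifs with h
  · obtain ⟨i, rfl⟩ := h
    refine sum_congr rfl fun l _ => ?_
    rw [Nat.mul_div_cancel_left _ hm, ← map_pow, ← Nat.mul_sub, coeff_expand_mul]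
    simp only [Nat.mul_le_mul_left_iff hm]
  · refine sum_eq_zero fun l _ => ?_
    split_ifs with h2
    · rw [← map_pow, coeff_expand_of_not_dvd, mul_zero]
      intro h3
      exact h ((Nat.dvd_sub_iff_right h2 (dvd_mul_right m l)).1 h3)
    · simp

theorem link_one (u : S) (d : ℕ) (hu : u ^ (d + 1) = 0) (Φ : ℚ⟦X⟧ →+* S) (hX : Φ X = u ^ 2)
    (x y : ℕ → ℚ) {T : ℕ → ℕ → S} (h0 : T 0 0 = 1)
    (h1 : ∀ k l, T k (l + 1) = ∑ i ∈ range k, T i 0 * T (k - 1 - i) l +
        ∑ e ∈ range (d + 1), Φ (C (x e)) * u ^ (e + 1) * T (k + e) l)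
    (h2 : ∀ k, T (k + 1) 0 = ∑ e ∈ range (d + 1), Φ (C (y e)) * u ^ (e + 1) * T k e) :
    Φ (PowerSeries.mk fun n => zz x y n 1 1) = u ^ 2 * T 1 1 := by
  have key : ∀ (N : ℕ) (c g : ℕ → S), u ^ N ∣ ∑ e ∈ range (d + 1), c e * u ^ (e + 1) * g e -
      ∑ e ∈ range (N + 1), c e * u ^ (e + 1) * g e := by
    intro N c g
    rcases le_total N d with h | h
    · obtain ⟨r, rfl⟩ := Nat.exists_eq_add_of_le h
      rw [add_right_comm, sum_range_add, add_sub_cancel_left]
      exact dvd_sum fun e _ => ((pow_dvd_pow u (by omega)).mul_left _).mul_right _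
    · obtain ⟨r, rfl⟩ := Nat.exists_eq_add_of_le h
      rw [add_right_comm d r, sum_range_add _ (d + 1), sum_eq_zero (s := range r), add_zero,
        sub_self]
      · exact dvd_zero _
      · intro e _
        rw [add_assoc (d + 1), pow_add, hu]; simp
  have hR : Rec u (u ^ 2) (fun e => Φ (C (x e))) (fun e => Φ (C (y e)))
      fun k l => u ^ (k + l) * T k l := by
    intro N
    refine ⟨by simp [h0], fun k l => ?_, fun k => ?_⟩
    · have := (key N (fun e => Φ (C (x e))) fun e => T (k + e) l).mul_left (u ^ (k + (l + 1)))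
      refine (congrArg (u ^ N ∣ ·) ?_).mp this
      simp only [h1, mul_add, mul_sub, mul_sum]
      have e1 : ∑ i ∈ range k, u ^ 2 * (u ^ (i + 0) * T i 0 *
          (u ^ (k - 1 - i + l) * T (k - 1 - i) l)) = ∑ i ∈ range k,
          u ^ (k + (l + 1)) * (T i 0 * T (k - 1 - i) l) := by
        refine sum_congr rfl fun i hi => ?_
        have := mem_range.1 hi
        rw [show k + (l + 1) = 2 + (i + 0) + (k - 1 - i + l) by omega]
        ring
      have e2 : ∑ e ∈ range (N + 1), u ^ 2 * (Φ (C (x e)) * (u ^ (k + e + l) * T (k + e) l)) =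
          ∑ e ∈ range (N + 1), u ^ (k + (l + 1)) * (Φ (C (x e)) * u ^ (e + 1) * T (k + e) l) :=
        sum_congr rfl fun m _ => by ring
      rw [e1, e2]; ring
    · have := (key N (fun e => Φ (C (y e))) fun e => T k e).mul_left (u ^ (k + 1 + 0))
      refine (congrArg (u ^ N ∣ ·) ?_).mp this
      simp only [h2, mul_sub, mul_sum]
      congr 1
      exact sum_congr rfl fun m _ => by ring
  have hZ := (rec_zz x y).map Φ u (by rw [hX]; exact dvd_pow_self _ two_ne_zero)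
  rw [hX] at hZ
  have := Rec.unique (dvd_pow_self _ two_ne_zero) hZ hR (d + 1) 1 1
  rw [hu, zero_dvd_iff, sub_eq_zero] at this
  exact this

variable [Algebra ℚ S]

/-- the link in a ring where the expansion parameter is nilpotent -/
theorem link_ring (u : S) {m n : ℕ} (hm : 0 < m) (hn : 0 < n) (hu : u ^ n = 0) (Φ : ℚ⟦X⟧ →+* S)
    (hX : Φ X = u ^ 2) (x y : ℕ → ℚ) (hx : ∀ k, ¬ m ∣ k → x k = 0) (hy : ∀ k, ¬ m ∣ k → y k = 0)
    (hx0 : x 0 = 0) (hy0 : y 0 = 0) (α β : S⟦X⟧) (hα : IsUnit (coeff 0 α)) (hβ : coeff 0 β = 1)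
    (lα : Low n α) (lβ : Low n β)
    (hq : ∀ i, 1 ≤ i → coeff i β = ∑ l ∈ range (n + 1), Φ (C (x (m * l))) * u ^ (m * l) *
      if i ≤ l then coeff (l - i) (α ^ (m * l - 1)) else 0)
    (hp : ∀ i, coeff i α = (if i = 0 then 1 else 0) +
      ∑ l ∈ range (n + 1), Φ (C (y (m * l))) * u ^ (m * l) *
      if i ≤ l then coeff (l - i) (β ^ (m * l - 1)) else 0) :
    2 * Φ (PowerSeries.mk fun k => zz (fun e => x (e + 1)) (fun e => y (e + 1)) k 1 1) =
      u ^ 2 * (1 - ∑ k ∈ range (n * 2 + 1),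
        coeff k (α * (C (m : S) * eul α - α)) * coeff k (β ^ 2)) := by
  have hd : m * n - 1 + 1 = m * n := Nat.sub_add_cancel (Nat.mul_pos hm hn)
  have low : ∀ f : S⟦X⟧, Low n f → Low (m * n - 1 + 1) (expand m hm.ne' f) := by
    intro f hf j hj
    rw [coeff_expand]
    split_ifs with h
    · obtain ⟨i, rfl⟩ := h
      rw [Nat.mul_div_cancel_left _ hm]
      exact hf i (Nat.lt_of_mul_lt_mul_left (hd ▸ hj))
    · rfl
  have hw : ∀ x : ℕ → ℚ, (∀ k, ¬ m ∣ k → x k = 0) → ∀ k, ¬ m ∣ k → Φ (C (x k)) * u ^ k = 0 :=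
    fun x hx k hk => by simp [hx k hk]
  have sx := side_expand hm hn (fun k => Φ (C (x k)) * u ^ k) (hw x hx) (by simp [hx0]) α
  have sy := side_expand hm hn (fun k => Φ (C (y k)) * u ^ k) (hw y hy) (by simp [hy0]) β
  obtain ⟨T, h0, h1, h2, h3⟩ := tutte (m * n - 1) (expand m hm.ne' α) (expand m hm.ne' β)
    (fun e => Φ (C (x (e + 1))) * u ^ (e + 1)) (fun e => Φ (C (y (e + 1))) * u ^ (e + 1))
    (by rwa [constantCoeff_expand, ← coeff_zero_eq_constantCoeff_apply])
    (by rw [coeff_expand, if_pos (dvd_zero m), Nat.zero_div, hβ]) (low α lα) (low β lβ)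
    (fun j hj => by
      rw [sx, coeff_expand]
      refine if_ctx_congr Iff.rfl (fun h => hq _ ?_) fun _ => rfl
      exact Nat.div_pos (Nat.le_of_dvd hj h) hm)
    (fun j hj => by
      rw [sy, coeff_expand]
      refine if_ctx_congr Iff.rfl (fun h => ?_) fun _ => rfl
      rw [hp, if_neg (Nat.div_pos (Nat.le_of_dvd hj h) hm).ne', zero_add])
    (by
      have := sy 0
      simp only [Nat.zero_le, if_true, Nat.sub_zero, dvd_zero, Nat.zero_div] at this
      rw [this, coeff_expand, if_pos (dvd_zero m), Nat.zero_div, hp]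
      simp)
  have hu' : u ^ (m * n - 1 + 1) = 0 := by rw [hd, mul_comm, pow_mul, hu, zero_pow hm.ne']
  rw [link_one u _ hu' Φ hX _ _ h0 h1 h2, mul_left_comm, h3, hd, mul_assoc, eul_expand, ← map_sub,
    ← map_mul, ← map_pow, sum_mult hm _ fun k hk => by rw [coeff_expand_of_not_dvd _ _ _ hk]; simp]
  congr 1
  rw [sub_eq_add_neg (1 : S), ← sum_neg_distrib]
  congr 1
  refine sum_congr rfl fun k _ => ?_
  rw [coeff_expand_mul, coeff_expand_mul, ← neg_mul, ← map_neg]
  congr 2; ring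

end Pool.Agent.MP_098ecc_co.H10
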