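import Mathlib

set_option autoImplicit false

namespace Pool.Agent.MP_098ecc_co.H10

open Complex Set Filter Topology intervalIntegral

theorem hasDerivAt_cis (k : ℂ) (θ : ℝ) :
    HasDerivAt (fun θ : ℝ => exp (k * θ * I)) (k * I * exp (k * θ * I)) θ := by
  have := (((hasDerivAt_id (θ : ℂ)).const_mul k).mul_const I).cexp.comp_ofReal
  simp only [id, mul_one] at this
  rwa [mul_comm (k * I)]

theorem ibp1 {u u1 : ℝ → ℂ} (h1 : ∀ θ, HasDerivAt u (u1 θ) θ) (c1 : Continuous u1) {p q : ℝ}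
    (hp : u p = 0) (hq : u q = 0) (k : ℂ) :
    k * I * ∫ θ in p..q, u θ * exp (k * θ * I) = -∫ θ in p..q, u1 θ * exp (k * θ * I) := by
  have c0 : Continuous u := continuous_iff_continuousAt.2 fun θ => (h1 θ).continuousAt
  have := integral_eq_sub_of_hasDerivAt (a := p) (b := q)
    (fun θ _ => (h1 θ).mul (hasDerivAt_cis k θ)) (Continuous.intervalIntegrable (by fun_prop) _ _)
  rw [integral_add (Continuous.intervalIntegrable (by fun_prop) _ _)
    (Continuous.intervalIntegrable (by fun_prop) _ _)] at this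
  simp only [Pi.mul_apply, hp, hq, zero_mul, sub_zero, mul_left_comm _ (k * I),
    integral_const_mul] at this
  linear_combination this

theorem ibp2 {u u1 u2 : ℝ → ℂ} (h1 : ∀ θ, HasDerivAt u (u1 θ) θ) (h2 : ∀ θ, HasDerivAt u1 (u2 θ) θ)
    (c2 : Continuous u2) {p q K : ℝ} (hp : u p = 0) (hq : u q = 0) (hp1 : u1 p = 0) (hq1 : u1 q = 0)
    (hK : ∀ θ ∈ uIoc p q, ‖u2 θ‖ ≤ K) {k : ℤ} (hk : k ≠ 0) :
    ‖∫ θ in p..q, u θ * exp (k * θ * I)‖ ≤ K * |q - p| / (k : ℝ) ^ 2 := by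
  have c1 : Continuous u1 := continuous_iff_continuousAt.2 fun θ => (h2 θ).continuousAt
  have e : (k : ℂ) ^ 2 * ∫ θ in p..q, u θ * exp (k * θ * I) =
      -∫ θ in p..q, u2 θ * exp (k * θ * I) := by
    linear_combination (-k * I) * ibp1 h1 c1 hp hq k + ibp1 h2 c2 hp1 hq1 k +
      ((k : ℂ) ^ 2 * ∫ θ in p..q, u θ * exp (k * θ * I)) * I_sq
  have e2 := congrArg norm e
  rw [norm_mul, norm_neg, norm_pow, norm_intCast, sq_abs] at e2
  rw [le_div_iff₀ (by positivity), mul_comm, e2]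
  refine norm_integral_le_of_norm_le_const fun θ hθ => ?_
  rw [norm_mul, ← ofReal_intCast, ← ofReal_mul, norm_exp_ofReal_mul_I, mul_one]
  exact hK θ hθ

theorem c2_data {f : ℝ → ℂ} (hf : ContDiff ℝ 2 f) : ∃ f1 f2 : ℝ → ℂ,
    (∀ θ, HasDerivAt f (f1 θ) θ) ∧ (∀ θ, HasDerivAt f1 (f2 θ) θ) ∧ Continuous f2 := by
  have h1 : ContDiff ℝ 1 (deriv f) := (contDiff_succ_iff_deriv (n := 1).1 hf).2.2
  exact ⟨deriv f, deriv (deriv f), fun θ => (hf.differentiable (by norm_num) θ).hasDerivAt,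
    fun θ => (h1.differentiable (by norm_num) θ).hasDerivAt, h1.continuous_deriv le_rfl⟩

/-- a function on a short arc whose Fourier coefficients almost vanish on one side -/
theorem exists_test {a η : ℝ} (ha : 0 < a) (ha1 : a < 1) (hη : 0 < η) :
    ∃ (u : ℝ → ℂ) (C : ℝ) (ψ : ℤ → ℂ), Continuous u ∧
      (∀ k : ℤ, ψ k = ∫ θ in (-a)..a, u θ * exp (k * θ * I)) ∧ ‖ψ 0 - 1‖ ≤ η ∧
      (∀ k : ℤ, 0 < k → ‖ψ k‖ ≤ η / (k : ℝ) ^ 2) ∧ ∀ k : ℤ, k ≠ 0 → ‖ψ k‖ ≤ C / (k : ℝ) ^ 2 := by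
  have hpi := Real.pi_gt_three
  have hc0 : 0 < Real.cos a := Real.cos_pos_of_mem_Ioo ⟨by linarith, by linarith⟩
  have hc1 : Real.cos a < 1 := by
    rw [← Real.cos_zero]
    exact Real.cos_lt_cos_of_nonneg_of_le_pi le_rfl (by linarith) ha
  obtain ⟨r, hr0, hr1⟩ := exists_between hc1
  have hne : ∀ z : ℂ, ‖z‖ ≤ 1 → 1 - r * z ≠ 0 := by
    intro z hz h
    have h1 := congrArg norm (sub_eq_zero.1 h)
    rw [norm_one, norm_mul, norm_real, Real.norm_of_nonneg (by linarith)] at h1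
    nlinarith
  have hne' : ∀ θ : ℝ, 1 - r * exp (θ * I) ≠ 0 := fun θ => hne _ (norm_exp_ofReal_mul_I θ).le
  let P : ℝ → ℂ := fun θ => (exp (θ * I) - exp (a * I)) * (exp (θ * I) - exp (-a * I))
  let B : ℝ → ℂ := fun θ => exp (θ * I) / (1 - r * exp (θ * I))
  have hw : ContDiff ℝ 2 fun θ : ℝ => exp (θ * I) := (ofRealCLM.contDiff.mul contDiff_const).cexp
  obtain ⟨P1, P2, p1, p2, p3⟩ := c2_data (f := P) ((hw.sub contDiff_const).mul
    (hw.sub contDiff_const))
  obtain ⟨B1, B2, b1, b2, b3⟩ := c2_data (f := B) (by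
    simp only [B, div_eq_mul_inv]
    exact hw.mul ((contDiff_const.sub (contDiff_const.mul hw)).inv hne'))
  have cP : Continuous P := continuous_iff_continuousAt.2 fun θ => (p1 θ).continuousAt
  have cP1 : Continuous P1 := continuous_iff_continuousAt.2 fun θ => (p2 θ).continuousAt
  have cB : Continuous B := continuous_iff_continuousAt.2 fun θ => (b1 θ).continuousAt
  have cB1 : Continuous B1 := continuous_iff_continuousAt.2 fun θ => (b2 θ).continuousAt
  have Pa : P a = 0 := by simp [P]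
  have Pa' : P (-a) = 0 := by simp [P]
  have Pa'' : P (2 * Real.pi + -a) = 0 := by
    have : exp (((2 * Real.pi + -a : ℝ) : ℂ) * I) = exp (-a * I) := by
      push_cast; rw [add_mul, exp_add, exp_two_pi_mul_I, one_mul]
    simp only [P, this, sub_self, mul_zero]
  obtain ⟨θ₀, h0, hmax⟩ := (isCompact_Icc (a := a) (b := 2 * Real.pi + -a)).exists_isMaxOn
    (nonempty_Icc.2 (by linarith)) (continuous_re.comp cB).continuousOn
  have hneg : (B θ₀).re < 0 := by
    have h1 : Real.cos θ₀ ≤ Real.cos a := by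
      rcases le_total θ₀ Real.pi with h | h
      · exact Real.cos_le_cos_of_nonneg_of_le_pi ha.le h h0.1
      · rw [← Real.cos_two_pi_sub]
        exact Real.cos_le_cos_of_nonneg_of_le_pi ha.le (by linarith) (by linarith [h0.2])
    have h2 := normSq_pos.2 (hne' θ₀)
    simp only [B, div_re, ← add_div]
    refine div_neg_of_neg_of_pos ?_ h2
    simp only [sub_re, one_re, re_ofReal_mul, exp_ofReal_mul_I_re, sub_im, one_im, im_ofReal_mul,
      exp_ofReal_mul_I_im]
    linear_combination h1 + hr0 - r * Real.sin_sq_add_cos_sq θ₀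
  set ρ := Real.exp (B θ₀).re with hρ
  have hρ1 : |ρ| < 1 := by
    rw [abs_of_pos (Real.exp_pos _)]; exact Real.exp_lt_one_iff.2 hneg
  obtain ⟨K, hK⟩ := (isCompact_Icc (a := a) (b := 2 * Real.pi + -a)).exists_bound_of_continuousOn
    (f := fun θ => (P θ ^ 2, 2 * P1 θ ^ 2 + 2 * P θ * P2 θ, 4 * P θ * P1 θ * B1 θ + P θ ^ 2 * B2 θ,
      P θ ^ 2 * B1 θ ^ 2)) (by fun_prop)
  have hK0 : 0 ≤ K := (norm_nonneg _).trans (hK θ₀ h0)
  obtain ⟨M, hM⟩ : ∃ M : ℕ, K * ((M : ℝ) ^ 0 * ρ ^ M + M ^ 1 * ρ ^ M + M ^ 2 * ρ ^ M) < η := by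
    have := (((tendsto_pow_const_mul_const_pow_of_abs_lt_one 0 hρ1).add
      (tendsto_pow_const_mul_const_pow_of_abs_lt_one 1 hρ1)).add
      (tendsto_pow_const_mul_const_pow_of_abs_lt_one 2 hρ1)).const_mul K
    exact (this.eventually_lt_const (by simpa using hη)).exists
  have hE : ∀ θ ∈ Icc a (2 * Real.pi + -a), ‖exp (M * B θ)‖ ≤ ρ ^ M := by
    intro θ hθ
    rw [exp_nat_mul, norm_pow, norm_exp]
    exact pow_le_pow_left₀ (Real.exp_pos _).le (Real.exp_le_exp.2 (hmax hθ)) M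
  let v : ℝ → ℂ := fun θ => P θ ^ 2 * exp (M * B θ)
  let v1 : ℝ → ℂ := fun θ => P θ * (2 * P1 θ + M * P θ * B1 θ) * exp (M * B θ)
  let v2 : ℝ → ℂ := fun θ => ((2 * P1 θ ^ 2 + 2 * P θ * P2 θ) +
    M * (4 * P θ * P1 θ * B1 θ + P θ ^ 2 * B2 θ) + M ^ 2 * (P θ ^ 2 * B1 θ ^ 2)) * exp (M * B θ)
  have d1 : ∀ θ, HasDerivAt v (v1 θ) θ := fun θ =>
    (((p1 θ).fun_pow 2).fun_mul ((b1 θ).const_mul (M : ℂ)).cexp).congr_deriv (by
      simp only [v1]; push_cast; ring)
  have d2 : ∀ θ, HasDerivAt v1 (v2 θ) θ := fun θ =>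
    (((p1 θ).fun_mul (((p2 θ).const_mul 2).fun_add (((p1 θ).const_mul (M : ℂ)).fun_mul
      (b2 θ)))).fun_mul ((b1 θ).const_mul (M : ℂ)).cexp).congr_deriv (by simp only [v2]; ring)
  have cv : Continuous v := continuous_iff_continuousAt.2 fun θ => (d1 θ).continuousAt
  have cv2 : Continuous v2 := by simp only [v2]; fun_prop
  have full : ∀ k : ℕ, (∫ θ in (-a)..a, v θ * exp ((k : ℤ) * θ * I)) = 2 * Real.pi * 0 ^ k -
      ∫ θ in a..(2 * Real.pi + -a), v θ * exp ((k : ℤ) * θ * I) := by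
    intro k
    have h1 := (DifferentiableOn.diffContOnCl (𝕜 := ℂ) (s := Metric.ball (0 : ℂ) |1|)
      (f := fun z => ((z - exp (a * I)) * (z - exp (-a * I))) ^ 2 *
        exp (M * (z / (1 - r * z))) * z ^ k) (by
      rw [abs_one, closure_ball _ one_ne_zero]
      intro z hz
      have := hne z (by simpa using hz)
      refine DifferentiableAt.differentiableWithinAt ?_
      fun_prop (disch := assumption))).circleAverage
    rw [Real.circleAverage_eq_integral_add (-a), integral_comp_add_right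
      (fun θ => ((circleMap 0 1 θ - exp (a * I)) * (circleMap 0 1 θ - exp (-a * I))) ^ 2 *
        exp (M * (circleMap 0 1 θ / (1 - r * circleMap 0 1 θ))) * circleMap 0 1 θ ^ k), zero_add,
      inv_smul_eq_iff₀ (by positivity)] at h1
    rw [eq_sub_iff_add_eq, integral_add_adjacent_intervals
      (Continuous.intervalIntegrable (by fun_prop) _ _)
      (Continuous.intervalIntegrable (by fun_prop) _ _)]
    refine (integral_congr fun θ _ => ?_).trans (h1.trans ?_)
    · simp only [v, P, B, circleMap, zero_add, ofReal_one, one_mul, ← exp_nat_mul, mul_assoc,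
        Int.cast_natCast]
    · simp [← exp_add]
  have habs : |2 * Real.pi + -a - a| ≤ 2 * Real.pi := by
    rw [abs_of_nonneg (by linarith)]; linarith
  have hsub : uIoc a (2 * Real.pi + -a) ⊆ Icc a (2 * Real.pi + -a) := by
    rw [uIoc_of_le (by linarith)]; exact Ioc_subset_Icc_self
  obtain ⟨K', hK'⟩ := (isCompact_uIcc (a := -a) (b := a)).exists_bound_of_continuousOn
    cv2.continuousOn
  have hn : ‖(2 * Real.pi : ℂ)⁻¹‖ = (2 * Real.pi)⁻¹ := by simp [abs_of_pos Real.pi_pos]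
  have hp2 : (2 * Real.pi : ℂ) ≠ 0 := by simp [Real.pi_ne_zero]
  have hρ0 : 0 ≤ ρ ^ M := by positivity
  refine ⟨fun θ => (2 * Real.pi : ℂ)⁻¹ * v θ, (2 * Real.pi)⁻¹ * (K' * |a - -a|),
    fun k => (2 * Real.pi : ℂ)⁻¹ * ∫ θ in (-a)..a, v θ * exp (k * θ * I), by fun_prop,
    fun k => by simp only [mul_assoc, integral_const_mul], ?_, fun k hk => ?_, fun k hk => ?_⟩
  · have h1 := full 0
    rw [Nat.cast_zero] at h1
    beta_reduce
    rw [h1, pow_zero, mul_one, mul_sub, inv_mul_cancel₀ hp2, sub_sub_cancel_left, norm_neg,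
      norm_mul, hn, inv_mul_le_iff₀ (by positivity)]
    refine (norm_integral_le_of_norm_le_const (C := η) fun θ hθ => ?_).trans
      (by rw [mul_comm]; gcongr)
    simp only [Int.cast_zero, zero_mul, exp_zero, mul_one, v, norm_mul]
    refine (mul_le_mul ((norm_fst_le _).trans (hK θ (hsub hθ))) (hE θ (hsub hθ)) (norm_nonneg _)
      hK0).trans (le_trans ?_ hM.le)
    gcongr
    have : 0 ≤ (M : ℝ) ^ 1 * ρ ^ M + M ^ 2 * ρ ^ M := by positivity
    linarith
  · obtain ⟨k, rfl⟩ := Int.eq_ofNat_of_zero_le hk.le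
    beta_reduce
    rw [full k, zero_pow (by omega), mul_zero, zero_sub, norm_mul, norm_neg, hn,
      inv_mul_le_iff₀ (by positivity)]
    refine (ibp2 (K := η) d1 d2 cv2 (by simp [v, Pa]) (by simp only [v, Pa'']; simp)
      (by simp [v1, Pa]) (by simp only [v1, Pa'']; simp) (fun θ hθ => ?_) hk.ne').trans ?_
    · have h2 := hK θ (hsub hθ)
      simp only [Prod.norm_def, max_le_iff] at h2
      refine le_trans ?_ hM.le
      simp only [v2]
      rw [norm_mul, show K * ((M : ℝ) ^ 0 * ρ ^ M + M ^ 1 * ρ ^ M + M ^ 2 * ρ ^ M) =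
        (K + M * K + M ^ 2 * K) * ρ ^ M by ring]
      refine mul_le_mul (norm_add₃_le.trans ?_) (hE θ (hsub hθ)) (norm_nonneg _) (by positivity)
      rw [norm_mul (M : ℂ), norm_mul ((M : ℂ) ^ 2), norm_pow, Complex.norm_natCast]
      gcongr
      exacts [h2.2.1, h2.2.2.1, h2.2.2.2]
    · rw [← mul_div_assoc, mul_comm η]; gcongr
  · beta_reduce
    rw [norm_mul, hn, mul_div_assoc]
    exact mul_le_mul_of_nonneg_left (ibp2 d1 d2 cv2 (by simp only [v, Pa']; simp) (by simp [v, Pa])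
      (by simp only [v1, Pa']; simp) (by simp [v1, Pa])
      (fun θ hθ => hK' θ (uIoc_subset_uIcc hθ)) hk) (by positivity)

end Pool.Agent.MP_098ecc_co.H10
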